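import Pool.Agent.H.MP_21f5b8_an.B

set_option linter.unusedSectionVars false
set_option linter.dupNamespace false

namespace Pool.Agent.H.MP_0fb79d_an

open MeasureTheory Filter Topology Set Metric Pool.Agent.Lib.helper10.H10 Pool.Agent.H.MP_eb4995_an
open scoped ENNReal NNReal
open Pool.Agent.H.MP_21f5b8_an (pair_lin)

theorem fact32 : Fact (1 ≤ ((3 / 2 : ℝ≥0) : ℝ≥0∞)) :=
  ⟨by exact_mod_cast (show (1 : ℝ≥0) ≤ 3 / 2 by rw [← NNReal.coe_le_coe]; norm_num)⟩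

attribute [local instance] fact32 fact6 fact2

noncomputable abbrev L32 := Lp ℝ ((3 / 2 : ℝ≥0) : ℝ≥0∞) (volume : Measure (E 3))

noncomputable def P (t : ℝ) : ℝ := |t| * √|t|

noncomputable def ff (t : ℝ) : ℝ := t / √|t|

lemma P0 (t : ℝ) : 0 ≤ P t := by unfold P; positivity

lemma P_eq (t : ℝ) : P t = |t| ^ (3 / 2 : ℝ) := by
  rw [P, Real.sqrt_eq_rpow, show (3 / 2 : ℝ) = 1 + 1 / 2 by norm_num,
    Real.rpow_add' (abs_nonneg t) (by norm_num), Real.rpow_one]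

lemma P_c : Continuous P := by unfold P; fun_prop

lemma P_3 (t : ℝ) : P t = √|t| ^ 3 := by
  rw [P, pow_succ, Real.sq_sqrt (abs_nonneg t)]

lemma ff_eq (t : ℝ) : |t| ^ ((3 / 2 : ℝ) - 2) * t = ff t := by
  rw [ff, Real.sqrt_eq_rpow, show (3 / 2 : ℝ) - 2 = -(1 / 2) by norm_num,
    Real.rpow_neg (abs_nonneg t), inv_mul_eq_div]

lemma ff_abs (t : ℝ) : |ff t| = √|t| := by
  rw [ff, abs_div, abs_of_nonneg (Real.sqrt_nonneg _), Real.div_sqrt]

lemma ff_sq (t : ℝ) : ff t ^ 2 = |t| := by rw [← sq_abs, ff_abs, Real.sq_sqrt (abs_nonneg t)]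

lemma ff_mul (t : ℝ) : ff t * t = P t := by
  rw [ff, div_mul_eq_mul_div, ← abs_mul_abs_self, mul_div_assoc, Real.div_sqrt, P]

lemma ff_m : Measurable ff := by unfold ff; fun_prop

lemma P_cvx (x y : ℝ) : P x + 3 / 2 * (ff x * (y - x)) ≤ P y := by
  have h : ff x * y ≤ √|x| * √|y| ^ 2 := by
    rw [Real.sq_sqrt (abs_nonneg y), ← ff_abs, ← abs_mul]; exact le_abs_self _
  rw [mul_sub, ff_mul, P_3, P_3]
  nlinarith [mul_nonneg (sq_nonneg (√|y| - √|x|)) (show 0 ≤ √|y| + √|x| / 2 by positivity)]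

lemma P_le {κ : ℝ} (h : 0 < κ) (t : ℝ) : P t ≤ t ^ 2 / κ + κ ^ 3 := by
  have e : t ^ 2 = √|t| ^ 4 := by
    rw [show 4 = 2 * 2 from rfl, pow_mul, Real.sq_sqrt (abs_nonneg t), sq_abs]
  rw [P_3, e]
  have s0 := Real.sqrt_nonneg |t|
  rcases le_total √|t| κ with c | c
  · exact le_add_of_nonneg_of_le (by positivity) (by gcongr)
  · refine le_add_of_le_of_nonneg ((le_div_iff₀ h).2 ?_) (by positivity)
    rw [pow_succ _ 3]; gcongr

lemma P_mono {x y : ℝ} (h : |x| ≤ |y|) : P x ≤ P y := by unfold P; gcongr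

lemma P_smul (c t : ℝ) : P (c * t) = P c * P t := by
  rw [P_eq, P_eq, P_eq, abs_mul, Real.mul_rpow (abs_nonneg _) (abs_nonneg _)]

lemma P43 (c : ℝ) : P c ^ (4 / 3 : ℝ) = c ^ 2 := by
  rw [P_eq, ← Real.rpow_mul (abs_nonneg c), ← sq_abs, ← Real.rpow_natCast]; norm_num

lemma bern {a : ℝ} (h : 0 ≤ a) : 1 + 4 / 3 * (a - 1) ≤ a ^ (4 / 3 : ℝ) := by
  simpa using one_add_mul_self_le_rpow_one_add (s := a - 1) (by linarith) (p := 4 / 3) (by norm_num)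

variable {O Ω : Set (E 3)} {φ ψ : E 3 → ℝ} {l : ℝ} {J : Hs O →L[ℝ] L32}

lemma intP (h : Test Ω φ) : Integrable fun x => P (φ x) :=
  (P_c.comp h.cont).integrable_of_hasCompactSupport (h.2.1.comp_left (g := P) (by simp [P]))

lemma intPH (hJ : ∀ p, J p =ᵐ[volume] p.1.1) (p : Hs O) : Integrable fun x => P (p.1.1 x) := by
  refine ((Lp.memLp (J p)).integrable_norm_rpow (by simp) ENNReal.coe_ne_top).congr ?_
  filter_upwards [hJ p] with x hx
  rw [hx, P_eq]; simp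

lemma JA (hJ : ∀ p, J p =ᵐ[volume] p.1.1) (p : Hs O) :
    ‖J p‖ ^ 2 = (∫ x, P (p.1.1 x)) ^ (4 / 3 : ℝ) := by
  rw [Lp.norm_def, (Lp.memLp (J p)).eLpNorm_eq_integral_rpow_norm (by simp) ENNReal.coe_ne_top,
    ENNReal.toReal_ofReal (by positivity), ← Real.rpow_natCast, ← Real.rpow_mul (by positivity)]
  congr 1
  · refine integral_congr_ae ?_
    filter_upwards [hJ p] with x hx
    rw [hx, P_eq]; simp
  · simp; norm_num

lemma JA1 (hJ : ∀ p, J p =ᵐ[volume] p.1.1) (p : Hs O) : ∫ x, P (p.1.1 x) = P ‖J p‖ := by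
  have h0 : 0 ≤ ∫ x, P (p.1.1 x) := integral_nonneg fun _ => P0 _
  refine (Real.rpow_left_inj h0 (P0 _) (show (4 / 3 : ℝ) ≠ 0 by norm_num)).1 ?_
  rw [← JA hJ, P43]

lemma JT (hJ : ∀ p, J p =ᵐ[volume] p.1.1) (h : Test O φ) : ∫ x, P (φ x) = P ‖J (pair h)‖ := by
  rw [← JA1 hJ]
  exact integral_congr_ae ((pair_fst h).mono fun x hx => by simp only [hx])

lemma Ple (hO : Bornology.IsBounded O) (hm : MeasurableSet O) {u : E 3 → ℝ}
    (i1 : Integrable fun x => P (u x)) (i2 : Integrable fun x => u x ^ 2)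
    (z : ∀ᵐ x, x ∉ O → u x = 0) (S : Set (E 3)) {κ : ℝ} (h : 0 < κ) :
    ∫ x in S, P (u x) ≤ (∫ x in S, u x ^ 2) / κ + κ ^ 3 * volume.real O := by
  have i3 : Integrable (O.indicator fun _ => κ ^ 3) :=
    (integrable_indicator_iff hm).2 (integrableOn_const hO.measure_lt_top.ne)
  have : ∫ x in S, O.indicator (fun _ => κ ^ 3) x ≤ κ ^ 3 * volume.real O :=
    (setIntegral_le_integral i3 (Eventually.of_forall fun x =>
      indicator_nonneg (fun _ _ => by positivity) x)).trans_eq (by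
        rw [integral_indicator hm, setIntegral_const, smul_eq_mul, mul_comm])
  refine le_trans ?_ (add_le_add_right this _)
  rw [← integral_div, ← integral_add (i2.div_const _).integrableOn i3.integrableOn]
  refine integral_mono_ae i1.integrableOn ((i2.div_const _).add i3).integrableOn
    (ae_restrict_of_ae (z.mono fun x hx => ?_))
  by_cases c : x ∈ O
  · simpa [c] using P_le h (u x)
  · simp [c, hx c, P]

lemma sq2 (u : Lp ℝ 2 (volume : Measure (E 3))) : ‖u‖ ^ 2 = ∫ x, u x ^ 2 := by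
  rw [L2_norm_sq]; simp

lemma Jle (hO : Bornology.IsBounded O) (hm : MeasurableSet O) (hJ : ∀ p, J p =ᵐ[volume] p.1.1) :
    ∃ C, 0 ≤ C ∧ ∀ p, ‖J p‖ ^ 2 ≤ C * ‖p.1.1‖ ^ 2 := by
  refine ⟨(1 + volume.real O) ^ (4 / 3 : ℝ), by positivity, fun p => ?_⟩
  rcases (norm_nonneg p.1.1).eq_or_lt with h | h
  · have : J p = 0 := Lp.ext ((hJ p).trans (by
      rw [norm_eq_zero.1 h.symm]; exact (Lp.coeFn_zero _ _ _).trans (Lp.coeFn_zero _ _ _).symm))
    simp [this, ← h]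
  have := Ple hO hm (intPH hJ p) (Lp.memLp p.1.1).integrable_sq
    ((zero_off p).mono fun x hx h => (hx h).1) univ (Real.sqrt_pos.2 h)
  rw [Measure.restrict_univ, ← sq2] at this
  rw [JA hJ, ← P43 ‖p.1.1‖, ← Real.mul_rpow (by positivity) (P0 _)]
  refine Real.rpow_le_rpow (integral_nonneg fun _ => P0 _) (this.trans_eq ?_) (by norm_num)
  have e := P_3 ‖p.1.1‖
  rw [abs_of_pos h] at e
  rw [sq, mul_div_assoc, Real.div_sqrt, ← e, P, abs_of_pos h]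
  ring

lemma poin (hO : Bornology.IsBounded O) :
    ∃ C, 0 ≤ C ∧ ∀ p : Hs O, ‖p.1.1‖ ^ 2 ≤ C * ‖p.1.2‖ ^ 2 := by
  obtain ⟨J2, C2, hJ2, hC2⟩ := exists_J (N := 3) (by norm_num) hO 2 (by norm_num)
  refine ⟨C2 ^ 2, sq_nonneg _, fun p => ?_⟩
  have e : ‖p.1.1‖ = ‖J2 p‖ := by
    rw [Lp.norm_def, Lp.norm_def, eLpNorm_congr_ae (hJ2 p)]; rfl
  rw [e, ← mul_pow]
  gcongr
  exact hC2 p

lemma a12 : Tendsto (fun p : ℕ × ℕ => p.1) atTop atTop ∧
    Tendsto (fun p : ℕ × ℕ => p.2) atTop atTop := by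
  rw [← prod_atTop_atTop_eq]; exact ⟨tendsto_fst, tendsto_snd⟩

lemma cptH (hO : Bornology.IsBounded O) (Q : ℕ → Hs O) {U : ℝ} (hU : ∀ n, ‖(Q n).1.2‖ ^ 2 ≤ U) :
    ∃ κ : ℕ → ℕ, StrictMono κ ∧
      Tendsto (fun p : ℕ × ℕ => ‖(Q (κ p.1) - Q (κ p.2)).1.1‖) atTop (𝓝 0) := by
  have : ∀ n : ℕ, ∃ φ, ∃ h : Test O φ, ‖pair h - Q n‖ < 1 / (n + 1) := fun n => by
    obtain ⟨φ, h, t⟩ := exists_seq (Q n)
    obtain ⟨k, hk⟩ := (t.eventually (ball_mem_nhds _ (show 0 < 1 / ((n : ℝ) + 1) by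
      positivity))).exists
    exact ⟨_, h k, by rwa [← dist_eq_norm]⟩
  choose φ h hφ using this
  obtain ⟨C, C0, hC⟩ := poin hO
  have hn : ∀ n, ‖(pair (h n)).1.2‖ ^ 2 ≤ 2 * U + 2 := fun n => by
    have a : ‖(pair (h n)).1.2 - (Q n).1.2‖ ≤ 1 := (norm_snd_le (pair (h n) - Q n).1).trans
      ((hφ n).le.trans (div_le_self zero_le_one (by simp)))
    have b := pow_le_pow_left₀ (norm_nonneg _) ((norm_le_insert' _ (Q n).1.2).trans
      (add_le_add_right a _)) 2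
    nlinarith [hU n, sq_nonneg (‖(Q n).1.2‖ - 1)]
  have U0 := (sq_nonneg _).trans (hn 0)
  obtain ⟨κ, hκ, hR⟩ := Pool.Agent.Lib.helper10.Rellich.rellich volume hO (fun n => (h n).c1)
    (fun n => subset_closure.trans (h n).2.2) (C := (C + 1) * (2 * U + 2))
    (fun n => by
      rw [← pair_norm_fst (h n)]
      nlinarith [hC (pair (h n)), mul_le_mul_of_nonneg_left (hn n) C0])
    (fun n => by
      have := hn n
      rw [pair_norm_snd] at this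
      change Dt (φ n) ≤ _
      nlinarith)
  refine ⟨κ, hκ, ?_⟩
  have t0 := tendsto_one_div_add_atTop_nhds_zero_nat (𝕜 := ℝ).comp hκ.tendsto_atTop
  have t := (hR.sqrt.add (t0.comp a12.1)).add (t0.comp a12.2)
  simp only [Real.sqrt_zero, add_zero] at t
  refine squeeze_zero (fun _ => norm_nonneg _) (fun p => ?_) t
  have e : ‖(pair (h (κ p.1)) - pair (h (κ p.2))).1.1‖ =
      √(∫ x, (φ (κ p.1) x - φ (κ p.2) x) ^ 2) := by
    rw [← Real.sqrt_sq (norm_nonneg _), sq2]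
    congr 1
    exact integral_congr_ae ((pair_sub (h (κ p.1)) (h (κ p.2)) _ rfl).mono fun x hx => by simp only [hx])
  rw [← e, show Q (κ p.1) - Q (κ p.2) = pair (h (κ p.1)) - pair (h (κ p.2)) -
    (pair (h (κ p.1)) - Q (κ p.1)) + (pair (h (κ p.2)) - Q (κ p.2)) by abel]
  refine (norm_add_le _ _).trans (add_le_add ((norm_sub_le _ _).trans (add_le_add le_rfl ?_)) ?_)
  · exact (norm_fst_le (pair (h (κ p.1)) - Q (κ p.1)).1).trans (hφ _).le
  · exact (norm_fst_le (pair (h (κ p.2)) - Q (κ p.2)).1).trans (hφ _).le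

lemma conv (hO : Bornology.IsBounded O) (hm : MeasurableSet O) (hJ : ∀ p, J p =ᵐ[volume] p.1.1)
    {Q : ℕ → Hs O} (h1 : ∀ n, ‖J (Q n)‖ = 1) (l0 : 0 ≤ l)
    (hE : Tendsto (fun n => ‖(Q n).1.2‖ ^ 2) atTop (𝓝 l))
    (mid : ∀ η > 0, ∃ ρ > 0, ∃ N, ∀ n ≥ N, ∀ m ≥ N, ‖(Q n - Q m).1.1‖ < ρ →
      (l - η) * ‖J (Q n + Q m)‖ ^ 2 ≤ ‖(Q n + Q m).1.2‖ ^ 2) :
    ∃ κ : ℕ → ℕ, StrictMono κ ∧ ∃ p, Tendsto (fun n => Q (κ n)) atTop (𝓝 p) ∧ ‖J p‖ = 1 ∧
      ‖p.1.2‖ ^ 2 = l ∧ ∀ᵐ x, Tendsto (fun n => (Q (κ n)).1.1 x) atTop (𝓝 (p.1.1 x)) := by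
  obtain ⟨U, hU⟩ := hE.bddAbove_range
  obtain ⟨κ, hκ, t0⟩ := cptH hO Q fun n => hU ⟨n, rfl⟩
  obtain ⟨C, C0, hC⟩ := Jle hO hm hJ
  obtain ⟨C2, C20, hP⟩ := poin hO
  have t1 : Tendsto (fun p : ℕ × ℕ => ‖J (Q (κ p.1) - Q (κ p.2))‖) atTop (𝓝 0) := by
    have := ((t0.pow 2).const_mul C).sqrt
    simp only [ne_eq, OfNat.ofNat_ne_zero, not_false_eq_true, zero_pow, mul_zero,
      Real.sqrt_zero] at this
    exact squeeze_zero (fun _ => norm_nonneg _) (fun p => Real.le_sqrt_of_sq_le (hC _)) this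
  have tu := hE.comp hκ.tendsto_atTop
  have t2 : Tendsto (fun p : ℕ × ℕ => ‖(Q (κ p.1) - Q (κ p.2)).1.2‖ ^ 2) atTop (𝓝 0) := by
    have t3 := (((tu.comp a12.1).add (tu.comp a12.2)).const_mul 2).sub
      (((t1.const_mul 4).const_sub 4).const_mul l)
    rw [show 2 * (l + l) - l * (4 - 4 * 0) = 0 by ring] at t3
    refine tendsto_order.2 ⟨fun a ha => Eventually.of_forall fun p => ha.trans_le (sq_nonneg _),
      fun ε hε => ?_⟩
    obtain ⟨ρ, ρ0, N, hN⟩ := mid (ε / 8) (by positivity)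
    filter_upwards [t3.eventually (gt_mem_nhds (half_pos hε)), t0.eventually (gt_mem_nhds ρ0),
      (hκ.tendsto_atTop.comp a12.1).eventually_ge_atTop N,
      (hκ.tendsto_atTop.comp a12.2).eventually_ge_atTop N] with p p1 p2 p3 p4
    have b1 := hN _ p3 _ p4 p2
    have b4 : 2 ≤ ‖J (Q (κ p.1) + Q (κ p.2))‖ + ‖J (Q (κ p.1) - Q (κ p.2))‖ := by
      have := norm_add_le (J (Q (κ p.1) + Q (κ p.2))) (J (Q (κ p.1) - Q (κ p.2)))
      rw [← map_add, show Q (κ p.1) + Q (κ p.2) + (Q (κ p.1) - Q (κ p.2)) = (2 : ℝ) • Q (κ p.1) by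
        module, map_smul, norm_smul, h1] at this
      simpa using this
    have b3 : ‖J (Q (κ p.1) + Q (κ p.2))‖ ≤ 2 := by
      rw [map_add]; exact (norm_add_le _ _).trans_eq (by rw [h1, h1]; norm_num)
    have b2 := parallelogram_law_with_norm ℝ (Q (κ p.1)).1.2 (Q (κ p.2)).1.2
    have b5 : 4 - 4 * ‖J (Q (κ p.1) - Q (κ p.2))‖ ≤ ‖J (Q (κ p.1) + Q (κ p.2))‖ ^ 2 := by
      nlinarith [sq_nonneg (‖J (Q (κ p.1) + Q (κ p.2))‖ - 2)]
    have b6 := mul_le_mul_of_nonneg_left b5 l0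
    have b7 := mul_le_mul_of_nonneg_left (pow_le_pow_left₀ (norm_nonneg _) b3 2) hε.le
    change ‖(Q (κ p.1)).1.2 - (Q (κ p.2)).1.2‖ ^ 2 < _
    change _ ≤ ‖(Q (κ p.1)).1.2 + (Q (κ p.2)).1.2‖ ^ 2 at b1
    simp only [Function.comp] at p1 b1
    nlinarith
  have hc : CauchySeq fun n => Q (κ n) := by
    rw [cauchySeq_iff_tendsto_dist_atTop_0]
    have t3 := t0.add t2.sqrt
    simp only [add_zero, Real.sqrt_zero] at t3
    refine squeeze_zero (fun _ => dist_nonneg) (fun p => ?_) t3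
    rw [dist_eq_norm, Real.sqrt_sq (norm_nonneg _)]
    exact max_le (le_add_of_nonneg_right (norm_nonneg _)) (le_add_of_nonneg_left (norm_nonneg _))
  obtain ⟨p, hp⟩ := cauchySeq_tendsto_of_complete hc
  obtain ⟨κ', hκ', k⟩ := (tendstoInMeasure_of_tendsto_Lp (((continuous_fst.comp
    continuous_subtype_val).tendsto p).comp hp)).exists_seq_tendsto_ae
  exact ⟨κ ∘ κ', hκ.comp hκ', p, hp.comp hκ'.tendsto_atTop,
    tendsto_nhds_unique ((J.continuous.norm.tendsto p).comp hp)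
      (tendsto_const_nhds.congr fun n => (h1 _).symm),
    tendsto_nhds_unique ((cont_snd.tendsto p).comp hp) tu, k⟩

lemma memff (hO : Bornology.IsBounded O) (hm : MeasurableSet O) (p : Hs O) :
    MemLp (fun x => ff (p.1.1 x)) 2 volume := by
  refine (memLp_two_iff_integrable_sq (ff_m.comp_aemeasurable
    (Lp.aestronglyMeasurable _).aemeasurable).aestronglyMeasurable).2 ?_
  simp only [Function.comp, ff_sq]
  have : IsFiniteMeasure (volume.restrict O) := ⟨by simpa using hO.measure_lt_top⟩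
  exact (IntegrableOn.integrable_of_ae_notMem_eq_zero (s := O)
    (((Lp.memLp p.1.1).restrict O).integrable one_le_two)
      ((zero_off p).mono fun x hx h => (hx h).1)).abs

lemma intff (hO : Bornology.IsBounded O) (hm : MeasurableSet O) (p r : Hs O) :
    Integrable fun x => ff (p.1.1 x) * r.1.1 x := (memff hO hm p).integrable_mul (Lp.memLp r.1.1)

lemma euler (hO : Bornology.IsBounded O) (hm : MeasurableSet O) (hJ : ∀ p, J p =ᵐ[volume] p.1.1)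
    (l0 : 0 ≤ l) {p : Hs O} (p1 : ‖J p‖ = 1) (p2 : ‖p.1.2‖ ^ 2 = l) (r : Hs O)
    (hI : ∀ᶠ t in 𝓝 (0 : ℝ), l * ‖J (p + t • r)‖ ^ 2 ≤ ‖(p + t • r).1.2‖ ^ 2) :
    inner ℝ p.1.2 r.1.2 = l * ∫ x, ff (p.1.1 x) * r.1.1 x := by
  set a := inner ℝ p.1.2 r.1.2 with ha
  set m := ∫ x, ff (p.1.1 x) * r.1.1 x with hm'
  have key : ∀ᶠ t in 𝓝 (0 : ℝ), 0 ≤ 2 * (a - l * m) * t + ‖r.1.2‖ ^ 2 * t ^ 2 := by
    filter_upwards [hI] with t b1
    have b2 : ‖(p + t • r).1.2‖ ^ 2 = l + 2 * t * a + t ^ 2 * ‖r.1.2‖ ^ 2 := by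
      change ‖p.1.2 + t • r.1.2‖ ^ 2 = _
      rw [norm_add_sq_real, p2, inner_smul_right, norm_smul, mul_pow, Real.norm_eq_abs, sq_abs]
      ring
    have b3 : 1 + 3 / 2 * (t * m) ≤ ∫ x, P ((p + t • r).1.1 x) := by
      have e : ∫ x, P (p.1.1 x) = 1 := by rw [JA1 hJ, p1]; simp [P]
      rw [← e, ← integral_const_mul, ← integral_const_mul, ← integral_add (intPH hJ p)
        (((intff hO hm p r).const_mul _).const_mul _)]
      refine integral_mono_ae ((intPH hJ p).add (((intff hO hm p r).const_mul _).const_mul _))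
        (intPH hJ _) ?_
      filter_upwards [Lp.coeFn_add p.1.1 (t • r.1.1), Lp.coeFn_smul t r.1.1] with x h1 h2
      change _ ≤ P ((p.1.1 + t • r.1.1 : Lp ℝ 2 _) x)
      rw [h1, Pi.add_apply, h2, Pi.smul_apply, smul_eq_mul]
      refine le_trans (le_of_eq ?_) (P_cvx (p.1.1 x) _)
      ring
    have b4 := bern (integral_nonneg (μ := volume) fun x => P0 ((p + t • r).1.1 x))
    rw [← JA hJ] at b4
    nlinarith [mul_le_mul_of_nonneg_left b4 l0, mul_le_mul_of_nonneg_left b3 l0]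
  have hd : HasDerivAt (fun t : ℝ => 2 * (a - l * m) * t + ‖r.1.2‖ ^ 2 * t ^ 2)
      (2 * (a - l * m)) 0 :=
    (((hasDerivAt_id (0 : ℝ)).const_mul _).add (((hasDerivAt_id (0 : ℝ)).fun_pow 2).const_mul
      _)).congr_deriv (by simp)
  have hz := IsLocalMin.hasDerivAt_eq_zero (key.mono fun t ht => by simpa using ht) hd
  linarith

def Iq (Ω : Set (E 3)) (l : ℝ) : Prop := ∀ φ, Test Ω φ → l * (∫ x, P (φ x)) ^ (4 / 3 : ℝ) ≤ Dt φ

lemma Iq.H (h : Iq O l) (hJ : ∀ p, J p =ᵐ[volume] p.1.1) (p : Hs O) :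
    l * ‖J p‖ ^ 2 ≤ ‖p.1.2‖ ^ 2 := by
  refine dense_le (f := fun p => l * ‖J p‖ ^ 2) (by fun_prop) cont_snd (fun φ hφ => ?_) p
  have := h φ hφ
  rwa [JT hJ hφ, P43, ← pair_norm_snd hφ] at this

lemma nrm (h : Test Ω φ) (h0 : ∫ x, P (φ x) ≠ 0) : ∃ c : ℝ, 0 < c ∧
    c ^ 2 * (∫ x, P (φ x)) ^ (4 / 3 : ℝ) = 1 ∧ ∫ x, P ((c • φ) x) = 1 := by
  have a0 : 0 < ∫ x, P (φ x) := lt_of_le_of_ne (integral_nonneg fun _ => P0 _) h0.symm
  have c0 : 0 < (∫ x, P (φ x)) ^ (-(2 / 3) : ℝ) := by positivity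
  refine ⟨_, c0, ?_, ?_⟩
  · rw [← Real.rpow_natCast, ← Real.rpow_mul a0.le, ← Real.rpow_add a0]; norm_num
  · simp only [Pi.smul_apply, smul_eq_mul, P_smul, integral_const_mul]
    rw [P_eq, abs_of_pos c0, ← Real.rpow_mul a0.le, ← Real.rpow_add_one a0.ne']; norm_num

/-- infimum over a cone of test functions -/
lemma cone (C : (E 3 → ℝ) → Prop) (hC : ∀ φ (c : ℝ), 0 < c → C φ → C (c • φ)) (h : Test Ω φ)
    (c : C φ) : sInf {d | ∃ φ, Test Ω φ ∧ C φ ∧ ∫ x, P (φ x) = 1 ∧ d = Dt φ} *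
      (∫ x, P (φ x)) ^ (4 / 3 : ℝ) ≤ Dt φ := by
  by_cases h0 : ∫ x, P (φ x) = 0
  · rw [h0, Real.zero_rpow (by norm_num), mul_zero]; exact Dt_nonneg φ
  obtain ⟨t, t0, t1, t2⟩ := nrm h h0
  have := csInf_le (s := {d | ∃ φ, Test Ω φ ∧ C φ ∧ ∫ x, P (φ x) = 1 ∧ d = Dt φ})
    ⟨0, fun _ ⟨φ, _, _, _, e⟩ => e ▸ Dt_nonneg φ⟩ ⟨_, h.smul t, hC _ _ t0 c, t2, rfl⟩
  rw [Dt_smul h] at this
  refine le_of_mul_le_mul_left ?_ (pow_pos t0 2)
  rwa [mul_left_comm, t1, mul_one]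

end Pool.Agent.H.MP_0fb79d_an
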