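import Pool.Agent.H.MP_0fb79d_an.A

set_option linter.unusedSectionVars false
set_option linter.dupNamespace false

namespace Pool.Agent.H.MP_0fb79d_an

open MeasureTheory Filter Topology Set Metric Pool.Agent.Lib.helper10.H10 Pool.Agent.H.MP_eb4995_an
open scoped ENNReal NNReal
open Pool.Agent.H.MP_21f5b8_an (tmul F F_smooth F_zero F_bd F_Dt)
open Pool.Agent.H.MP_d01728_an (th th_c th0 th1 thd exK nsq poinc intb)

attribute [local instance] fact32 fact6 fact2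

variable {O Ω : Set (E 3)} {φ ψ : E 3 → ℝ} {l : ℝ} {J : Hs O →L[ℝ] L32}

lemma fatou {μ : Measure (E 3)} {f : ℕ → E 3 → ℝ} {g : E 3 → ℝ} {c : ℕ → ℝ} {c0 : ℝ}
    (i : ∀ n, Integrable (f n) μ) (n0 : ∀ n x, 0 ≤ f n x)
    (t : ∀ᵐ x ∂μ, Tendsto (fun n => f n x) atTop (𝓝 (g x))) (b : ∀ n, ∫ x, f n x ∂μ ≤ c n)
    (hc : Tendsto c atTop (𝓝 c0)) : Integrable g μ ∧ ∫ x, g x ∂μ ≤ c0 := by
  have gm := aestronglyMeasurable_of_tendsto_ae atTop (fun n => (i n).1) t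
  have g0 : 0 ≤ᵐ[μ] g := t.mono fun x hx => ge_of_tendsto' hx fun n => n0 n x
  have L : ∫⁻ x, ENNReal.ofReal (g x) ∂μ ≤ ENNReal.ofReal c0 := by
    rw [← (ENNReal.tendsto_ofReal hc).liminf_eq, lintegral_congr_ae (t.mono fun x hx =>
      (ENNReal.tendsto_ofReal hx).liminf_eq.symm)]
    refine (lintegral_liminf_le' fun n => (i n).aemeasurable.ennreal_ofReal).trans
      (liminf_le_liminf (Eventually.of_forall fun n => ?_))
    rw [← ofReal_integral_eq_lintegral_ofReal (i n) (Eventually.of_forall (n0 n))]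
    exact ENNReal.ofReal_le_ofReal (b n)
  refine ⟨⟨gm, (hasFiniteIntegral_iff_ofReal g0).2 (L.trans_lt ENNReal.ofReal_lt_top)⟩, ?_⟩
  rw [integral_eq_lintegral_of_nonneg_ae g0 gm]
  exact ENNReal.toReal_le_of_le_ofReal
    (ge_of_tendsto' hc fun n => (integral_nonneg (n0 n)).trans (b n)) L

lemma seq_ae (p : Hs Ω) : ∃ (φ : ℕ → E 3 → ℝ) (h : ∀ n, Test Ω (φ n)),
    Tendsto (fun n => pair (h n)) atTop (𝓝 p) ∧ Tendsto (fun n => Dt (φ n)) atTop
      (𝓝 (‖p.1.2‖ ^ 2)) ∧ ∀ᵐ x, Tendsto (fun n => φ n x) atTop (𝓝 (p.1.1 x)) := by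
  obtain ⟨φ, h, t⟩ := exists_seq p
  obtain ⟨κ, hκ, k⟩ := (tendstoInMeasure_of_tendsto_Lp (((continuous_fst.comp
    continuous_subtype_val).tendsto p).comp t)).exists_seq_tendsto_ae
  have t' := t.comp hκ.tendsto_atTop
  refine ⟨φ ∘ κ, fun n => h _, t', ((cont_snd.tendsto p).comp t').congr fun n =>
    pair_norm_snd (h (κ n)), ?_⟩
  filter_upwards [k, ae_all_iff.2 fun n => pair_fst (h n)] with x a b
  exact a.congr fun n => b _

lemma om (h : Test Ω φ) (h' : Test Ω ψ) {δ : ℝ} (δ0 : 0 < δ) :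
    Test Ω (fun x => √(φ x * φ x + ψ x * ψ x + δ ^ 2) - δ) ∧
      Dt (fun x => √(φ x * φ x + ψ x * ψ x + δ ^ 2) - δ) ≤ Dt φ + Dt ψ := by
  have r := (tmul h h.1).add (tmul h' h'.1)
  have p : ∀ x, 0 < φ x * φ x + ψ x * ψ x + δ ^ 2 := fun x => by
    nlinarith [mul_self_nonneg (φ x), mul_self_nonneg (ψ x), pow_pos δ0 2]
  have z : (fun s : ℝ => √(s + δ ^ 2) - δ) 0 = 0 := by simp [Real.sqrt_sq δ0.le]
  have t : Test Ω (fun x => √(φ x * φ x + ψ x * ψ x + δ ^ 2) - δ) :=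
    ⟨((r.1.add contDiff_const).sqrt fun x => (p x).ne').sub contDiff_const,
      r.2.1.comp_left (g := fun s => √(s + δ ^ 2) - δ) z,
      (tsupport_comp_subset (g := fun s => √(s + δ ^ 2) - δ) z _).trans r.2.2⟩
  refine ⟨t, ?_⟩
  rw [Dt, Dt, Dt, ← integral_add (intD h) (intD h')]
  refine integral_mono (intD t) ((intD h).add (intD h')) fun x => ?_
  have a := (h.diff x).hasFDerivAt
  have b := (h'.diff x).hasFDerivAt
  have d := (((((a.mul a).add (b.mul b)).add_const (δ ^ 2)).sqrt (p x).ne').sub_const δ).fderiv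
  simp only [Pi.add_apply, Pi.mul_apply] at d ⊢
  rw [d, norm_smul, mul_pow, Real.norm_eq_abs, sq_abs, div_pow, mul_pow, Real.sq_sqrt (p x).le,
    one_pow, one_div, inv_mul_le_iff₀ (by linarith [p x]), nsq, nsq, nsq]
  simp only [add_apply, smul_apply, smul_eq_mul]
  have k : ∀ A B : ℝ, (φ x * A + φ x * A + (ψ x * B + ψ x * B)) ^ 2 ≤
      2 ^ 2 * (φ x * φ x + ψ x * ψ x + δ ^ 2) * (A ^ 2 + B ^ 2) := fun A B => by
    nlinarith [sq_nonneg (φ x * B - ψ x * A), mul_nonneg (sq_nonneg δ) (sq_nonneg A),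
      mul_nonneg (sq_nonneg δ) (sq_nonneg B)]
  linarith [k (fderiv ℝ φ x (EuclideanSpace.single 0 1)) (fderiv ℝ ψ x (EuclideanSpace.single 0 1)),
    k (fderiv ℝ φ x (EuclideanSpace.single 1 1)) (fderiv ℝ ψ x (EuclideanSpace.single 1 1)),
    k (fderiv ℝ φ x (EuclideanSpace.single 2 1)) (fderiv ℝ ψ x (EuclideanSpace.single 2 1))]

lemma Iq.lin (h : Iq Ω l) (l0 : 0 ≤ l) (hφ : Test Ω φ) :
    ∫ x, l * P (φ x) ≤ 3 / 4 * Dt φ + l / 4 := by
  have := mul_le_mul_of_nonneg_left (bern (integral_nonneg (μ := volume) fun x => P0 (φ x))) l0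
  rw [integral_const_mul]
  linarith [h φ hφ]

lemma t1n : Tendsto (fun n : ℕ => (1 : ℝ) / (n + 1)) atTop (𝓝 0) :=
  tendsto_one_div_add_atTop_nhds_zero_nat

lemma pic0 (v z : ℝ) : 3 / 4 * (z ^ 2 * |v| / P √(v * v + z * z)) ≤ P √(v * v + z * z) - P v := by
  have e : ∀ t : ℝ, t * t = √|t| ^ 4 := fun t => by
    rw [show 4 = 2 * 2 from rfl, pow_mul, Real.sq_sqrt (abs_nonneg t), sq_abs, sq]
  have s0 : 0 ≤ v * v + z * z := add_nonneg (mul_self_nonneg _) (mul_self_nonneg _)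
  have e1 := e √(v * v + z * z)
  have ba : √|v| ≤ √|√(v * v + z * z)| := Real.sqrt_le_sqrt ((Real.abs_le_sqrt
    (by nlinarith [mul_self_nonneg z])).trans (le_abs_self _))
  rw [Real.mul_self_sqrt s0] at e1
  have e2 := e v
  have e3 := Real.sq_sqrt (abs_nonneg v)
  have b0 := Real.sqrt_nonneg |v|
  rw [P_3, P_3]
  generalize √|√(v * v + z * z)| = a at *
  generalize √|v| = b at *
  rw [show z ^ 2 = a ^ 4 - b ^ 4 by linarith, ← e3]
  rcases (b0.trans ba).eq_or_lt with rfl | a0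
  · simp [le_antisymm ba b0]
  rw [← mul_div_assoc, div_le_iff₀ (by positivity)]
  obtain ⟨c, c0, rfl⟩ := le_iff_exists_nonneg_add.1 ba
  have : 0 ≤ 15 / 2 * b ^ 4 * c ^ 2 + 16 * b ^ 3 * c ^ 3 + 57 / 4 * b ^ 2 * c ^ 4 +
    6 * b * c ^ 5 + c ^ 6 := by positivity
  linarith

theorem picone (hJ : ∀ p, J p =ᵐ[volume] p.1.1) (hI : Iq O l) (l0 : 0 ≤ l) {p : Hs O}
    (p1 : ‖J p‖ = 1) (p2 : ‖p.1.2‖ ^ 2 = l) (r : Hs O) :
    Integrable (fun x => l * (r.1.1 x ^ 2 / √|p.1.1 x|)) ∧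
      ∫ x, l * (r.1.1 x ^ 2 / √|p.1.1 x|) ≤ ‖r.1.2‖ ^ 2 := by
  obtain ⟨φ, h, -, a2, a3⟩ := seq_ae p
  obtain ⟨ψ, h', -, b2, b3⟩ := seq_ae r
  have A : ∀ t : ℝ, Integrable (fun x => l * P √(p.1.1 x * p.1.1 x + t * r.1.1 x * (t * r.1.1 x)))
      ∧ ∫ x, l * P √(p.1.1 x * p.1.1 x + t * r.1.1 x * (t * r.1.1 x)) ≤
        3 / 4 * (l + t ^ 2 * ‖r.1.2‖ ^ 2) + l / 4 := fun t => by
    have o := fun n : ℕ => om (h n) ((h' n).smul t) (show 0 < 1 / ((n : ℝ) + 1) by positivity)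
    refine fatou (fun n => (intP (o n).1).const_mul l) (fun n x => mul_nonneg l0 (P0 _)) ?_
      (fun n => (hI.lin l0 (o n).1).trans (add_le_add_left (mul_le_mul_of_nonneg_left
        ((o n).2.trans_eq (by rw [Dt_smul (h' n)])) (by norm_num)) _))
      ((((p2 ▸ a2).add (b2.const_mul _)).const_mul _).add_const _)
    filter_upwards [a3, b3] with x a b
    have b := b.const_mul t
    simpa using ((P_c.tendsto _).comp
      ((((a.mul a).add (b.mul b)).add (t1n.pow 2)).sqrt.sub t1n)).const_mul l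
  have e : ∫ x, P (p.1.1 x) = 1 := by rw [JA1 hJ, p1]; simp [P]
  have m1 := (Lp.aestronglyMeasurable p.1.1).aemeasurable
  have m2 := (Lp.aestronglyMeasurable r.1.1).aemeasurable
  have B : ∀ t : ℝ, 0 < t → Integrable (fun x => l * (r.1.1 x ^ 2 * |p.1.1 x| /
      P √(p.1.1 x * p.1.1 x + t * r.1.1 x * (t * r.1.1 x)))) ∧ ∫ x, l * (r.1.1 x ^ 2 * |p.1.1 x| /
        P √(p.1.1 x * p.1.1 x + t * r.1.1 x * (t * r.1.1 x))) ≤ ‖r.1.2‖ ^ 2 := fun t t0 => by
    have i := ((A t).1.sub ((intPH hJ p).const_mul l)).const_mul (4 / 3 / t ^ 2)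
    have k : ∀ x, l * (r.1.1 x ^ 2 * |p.1.1 x| /
        P √(p.1.1 x * p.1.1 x + t * r.1.1 x * (t * r.1.1 x))) ≤ 4 / 3 / t ^ 2 *
        (l * P √(p.1.1 x * p.1.1 x + t * r.1.1 x * (t * r.1.1 x)) - l * P (p.1.1 x)) := fun x => by
      rw [div_mul_eq_mul_div _ (t ^ 2), le_div_iff₀ (by positivity)]
      have := mul_le_mul_of_nonneg_left (pic0 (p.1.1 x) (t * r.1.1 x)) l0
      rw [mul_pow, mul_assoc (t ^ 2), mul_div_assoc (t ^ 2)] at this
      linarith
    have i' : Integrable fun x => l * (r.1.1 x ^ 2 * |p.1.1 x| /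
        P √(p.1.1 x * p.1.1 x + t * r.1.1 x * (t * r.1.1 x))) := by
      refine i.mono' (AEMeasurable.aestronglyMeasurable ?_) (Eventually.of_forall fun x => ?_)
      · have := P_c.measurable
        fun_prop
      · rw [Real.norm_of_nonneg (mul_nonneg l0 (div_nonneg (by positivity) (P0 _)))]
        exact k x
    refine ⟨i', (integral_mono i' i k).trans ?_⟩
    simp only [Pi.sub_apply]
    rw [integral_const_mul, integral_sub (A t).1 ((intPH hJ p).const_mul l),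
      integral_const_mul l fun x => P (p.1.1 x), e, div_mul_eq_mul_div, div_le_iff₀ (by positivity)]
    linarith [(A t).2]
  refine fatou (fun n => (B (1 / (n + 1)) (by positivity)).1)
    (fun n x => mul_nonneg l0 (div_nonneg (by positivity) (P0 _)))
    (Eventually.of_forall fun x => Tendsto.const_mul _ ?_) (fun n => (B _ (by positivity)).2)
    tendsto_const_nhds
  by_cases c : p.1.1 x = 0
  · simp [c]
  have a := t1n.mul_const (r.1.1 x)
  have := ((P_c.tendsto _).comp ((a.mul a).const_add (p.1.1 x * p.1.1 x)).sqrt)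
  rw [zero_mul, zero_mul, add_zero, Real.sqrt_mul_self_eq_abs, P, abs_abs] at this
  have := tendsto_const_nhds (x := r.1.1 x ^ 2 * |p.1.1 x|).div this (by positivity)
  rwa [mul_comm (_ ^ 2), mul_div_mul_left _ _ (abs_pos.2 c).ne', mul_comm |_|] at this

end Pool.Agent.H.MP_0fb79d_an
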