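import Pool.Agent.H.MP_0fb79d_an.B

set_option linter.unusedSectionVars false
set_option linter.dupNamespace false

namespace Pool.Agent.H.MP_0fb79d_an

open MeasureTheory Filter Topology Set Metric Pool.Agent.Lib.helper10.H10 Pool.Agent.H.MP_eb4995_an
open scoped ENNReal NNReal
open Pool.Agent.H.MP_21f5b8_an (tmul F F_smooth F_zero F_bd F_Dt small)
open Pool.Agent.H.MP_d01728_an (th th_c th0 th1 thd exK nsq poinc intb)
open Real (cos sin)
open scoped Real

attribute [local instance] fact32 fact6 fact2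

variable {O Ω : Set (E 3)} {φ ψ : E 3 → ℝ} {l : ℝ} {c h : Fin 3 → ℝ}

noncomputable def Gs (σ s : ℝ) : ℝ := s * expNegInvGlue (s / σ)

lemma Gs_c (σ : ℝ) : ContDiff ℝ (⊤ : ℕ∞) (Gs σ) :=
  contDiff_id.mul (expNegInvGlue.contDiff.comp (contDiff_id.div_const σ))

lemma Gs_bd {σ : ℝ} (σ0 : 0 < σ) (s : ℝ) : 0 ≤ Gs σ s ∧ s - σ ≤ Gs σ s ∧ Gs σ s ≤ max s 0 := by
  unfold Gs expNegInvGlue
  split_ifs with c
  · have := (div_le_iff₀ σ0).1 c
    simp only [mul_zero, le_refl, true_and, le_max_right, and_true]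
    linarith
  have s0 : 0 < s := (div_pos_iff_of_pos_right σ0).1 (not_le.1 c)
  refine ⟨by positivity, ?_, le_max_of_le_left (mul_le_of_le_one_right s0.le
    (Real.exp_le_one_iff.2 (neg_nonpos.2 (by positivity))))⟩
  have := mul_le_mul_of_nonneg_left (Real.add_one_le_exp (-(s / σ)⁻¹)) s0.le
  rw [inv_div, mul_add, mul_neg, mul_div_cancel₀ _ s0.ne'] at this
  rw [inv_div]
  linarith

lemma Gs_d (σ s : ℝ) : ∃ g, 0 ≤ g ∧ g ≤ 1 ∧ HasDerivAt (Gs σ) g s := by
  have d := (expNegInvGlue.hasDerivAt_polynomial_eval_inv_mul 1 (s / σ)).comp s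
    ((hasDerivAt_id s).div_const σ)
  simp only [Polynomial.eval_one, one_mul, Function.comp_def] at d
  refine ⟨(1 + (s / σ)⁻¹) * expNegInvGlue (s / σ), ?_, ?_, ((hasDerivAt_id s).mul d).congr_deriv ?_⟩
  · by_cases c : s / σ ≤ 0
    · simp [expNegInvGlue.zero_of_nonpos c]
    · have := not_le.1 c
      exact mul_nonneg (by positivity) (expNegInvGlue.nonneg _)
  · unfold expNegInvGlue
    split_ifs
    · simp
    · rw [Real.exp_neg, ← div_eq_mul_inv, div_le_one (Real.exp_pos _), add_comm]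
      exact Real.add_one_le_exp _
  · by_cases c : s = 0
    · simp [c]
    · simp; field_simp

noncomputable def ps (k s : Fin 3 → ℝ) (p : E 3) : ℝ :=
  cos (k 0 * p 0 + s 0) * cos (k 1 * p 1 + s 1) * cos (k 2 * p 2 + s 2)

lemma ps_c (k s : Fin 3 → ℝ) : ContDiff ℝ (⊤ : ℕ∞) (ps k s) := by unfold ps; fun_prop

lemma ps_d (k s : Fin 3 → ℝ) (p : E 3) (i : Fin 3) :
    fderiv ℝ (ps k s) p (EuclideanSpace.single i 1) =
      k i * ps k (Function.update s i (s i + π / 2)) p := by
  have d : ∀ j : Fin 3, HasFDerivAt (fun p : E 3 => cos (k j * p j + s j)) _ p := fun j =>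
    (((EuclideanSpace.proj (𝕜 := ℝ) j : E 3 →L[ℝ] ℝ).hasFDerivAt.const_mul (k j)).add_const
      (s j)).cos
  have e : fderiv ℝ (ps k s) p = _ := (((d 0).mul (d 1)).mul (d 2)).fderiv
  rw [e]
  fin_cases i <;> simp [ps, ← add_assoc, Real.cos_add_pi_div_two] <;> ring

lemma ps_ibp (k s : Fin 3 → ℝ) (hφ : Test Ω φ) (i : Fin 3) :
    Integrable (fun p => fderiv ℝ (ps k s) p (EuclideanSpace.single i 1) *
      fderiv ℝ φ p (EuclideanSpace.single i 1)) ∧
    ∫ p, fderiv ℝ (ps k s) p (EuclideanSpace.single i 1) *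
      fderiv ℝ φ p (EuclideanSpace.single i 1) = k i ^ 2 * ∫ p, ps k s p * φ p := by
  have ii : ∀ s, Integrable fun p => ps k s p * φ p := fun s =>
    ((ps_c k s).continuous.mul hφ.cont).integrable_of_hasCompactSupport hφ.2.1.mul_left
  have i2 : Integrable fun p => ps k (Function.update s i (s i + π / 2)) p *
      fderiv ℝ φ p (EuclideanSpace.single i 1) :=
    ((ps_c k _).continuous.mul ((hφ.c1.continuous_fderiv one_ne_zero).clm_apply
      continuous_const)).integrable_of_hasCompactSupport (hφ.2.1.fderiv_apply ℝ _).mul_left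
  simp only [ps_d, mul_assoc]
  refine ⟨i2.const_mul _, ?_⟩
  rw [integral_const_mul, integral_mul_fderiv_eq_neg_fderiv_mul_of_integrable
    (by simp only [ps_d, mul_assoc]; exact (ii _).const_mul _) i2 (ii _)
    (fun x _ => (ps_c k _).differentiable (by simp) x) fun x _ => hφ.diff x]
  have e : ∀ p, ps k (Function.update (Function.update s i (s i + π / 2)) i
      (Function.update s i (s i + π / 2) i + π / 2)) p = -ps k s p := fun p => by
    fin_cases i <;> simp [ps, ← add_assoc, Real.cos_add_pi_div_two, Real.sin_add_pi_div_two]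
  simp only [ps_d, e, mul_neg, neg_mul, integral_neg, mul_assoc, integral_const_mul]
  ring

def Bo (c h : Fin 3 → ℝ) : Set (E 3) := {p | ∀ i, |p i - c i| < h i}

noncomputable def bp (c h : Fin 3 → ℝ) : E 3 → ℝ :=
  ps (fun i => π / 2 / h i) fun i => -(π / 2 / h i * c i)

lemma Bo_o (c h : Fin 3 → ℝ) : IsOpen (Bo c h) := by
  rw [Bo, ofPred_forall]
  exact isOpen_iInter_of_finite fun i => isOpen_lt (by fun_prop) continuous_const

lemma Bo_cv (c h : Fin 3 → ℝ) : Convex ℝ (Bo c h) := by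
  rw [Bo, ofPred_forall]
  refine convex_iInter fun i => ?_
  have := (convex_ball (c i) (h i)).linear_preimage
    (EuclideanSpace.proj (𝕜 := ℝ) i : E 3 →L[ℝ] ℝ).toLinearMap
  exact this

lemma Bc_c (c h : Fin 3 → ℝ) : IsCompact {p : E 3 | ∀ i, |p i - c i| ≤ h i} := by
  have := (isCompact_univ_pi fun i => isCompact_closedBall (c i) (h i)).image
    (PiLp.continuous_toLp 2 _)
  convert this using 1
  ext p
  exact ⟨fun hp => ⟨p.ofLp, fun i _ => hp i, rfl⟩, by rintro ⟨q, hq, rfl⟩ i; exact hq i trivial⟩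

lemma Bo_bd (c h : Fin 3 → ℝ) : Bornology.IsBounded (Bo c h) :=
  (Bc_c c h).isBounded.subset fun _ hp i => (hp i).le

lemma cos_bd {x c h : ℝ} (h0 : 0 < h) (hx : |x - c| ≤ h) :
    (h - |x - c|) / h ≤ cos (π / 2 / h * x + -(π / 2 / h * c)) := by
  have p := Real.pi_pos
  have q : 0 < π / 2 / h := by positivity
  rw [← Real.cos_abs, ← sub_eq_add_neg, ← mul_sub, abs_mul, abs_of_pos q]
  refine le_trans (le_of_eq ?_) (Real.one_sub_mul_le_cos (by positivity)
    ((mul_le_mul_of_nonneg_left hx q.le).trans_eq (by field_simp)))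
  field_simp

lemma bp_le (p : E 3) : |bp c h p| ≤ 1 := by
  rw [bp, ps, abs_mul, abs_mul]
  exact mul_le_one₀ (mul_le_one₀ (Real.abs_cos_le_one _) (abs_nonneg _) (Real.abs_cos_le_one _))
    (abs_nonneg _) (Real.abs_cos_le_one _)

lemma bp_ge (h0 : ∀ i, 0 < h i) {p : E 3} {a : Fin 3 → ℝ} (a0 : ∀ i, 0 ≤ a i)
    (hp : ∀ i, a i ≤ (h i - |p i - c i|) / h i) : a 0 * a 1 * a 2 ≤ bp c h p := by
  have k : ∀ i, a i ≤ _ := fun i => (hp i).trans (cos_bd (h0 i) (by
    have := (le_div_iff₀ (h0 i)).1 ((a0 i).trans (hp i))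
    linarith))
  exact mul_le_mul (mul_le_mul (k 0) (k 1) (a0 1) ((a0 0).trans (k 0))) (k 2) (a0 2)
    (mul_nonneg ((a0 0).trans (k 0)) ((a0 1).trans (k 1)))

lemma bp_bd (h0 : ∀ i, 0 < h i) {p : E 3} (hp : ∀ i, |p i - c i| ≤ h i) (hp' : p ∉ Bo c h) :
    bp c h p = 0 := by
  obtain ⟨i, hi⟩ := not_forall.1 hp'
  have e : cos (π / 2 / h i * p i + -(π / 2 / h i * c i)) = 0 := by
    have := h0 i
    rw [← Real.cos_abs, ← sub_eq_add_neg, ← mul_sub, abs_mul,
      abs_of_pos (show 0 < π / 2 / h i by have := Real.pi_pos; positivity),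
      (hp i).antisymm (not_lt.1 hi), div_mul_cancel₀ _ this.ne', Real.cos_pi_div_two]
  fin_cases i <;> simp only [bp, ps] <;> erw [e] <;> simp

lemma bar (h0 : ∀ i, 0 < h i) (hB : Bo c h ⊆ Ω) (hφ : Test Ω φ) (n0 : 0 ≤ φ) {ε σ : ℝ}
    (σ0 : 0 < σ) : Test Ω ((Bo c h).indicator fun p => Gs σ (ε * bp c h p - σ - φ p)) ∧
    Dt (φ + (Bo c h).indicator fun p => Gs σ (ε * bp c h p - σ - φ p)) ≤ Dt φ +
      2 * ε * (((π / 2 / h 0) ^ 2 + (π / 2 / h 1) ^ 2 + (π / 2 / h 2) ^ 2) *
      ∫ p, bp c h p * (Bo c h).indicator (fun p => Gs σ (ε * bp c h p - σ - φ p)) p) := by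
  set η := (Bo c h).indicator fun p => Gs σ (ε * bp c h p - σ - φ p) with hη
  have cb : ContDiff ℝ (⊤ : ℕ∞) (bp c h) := ps_c _ _
  have K : IsCompact ({p : E 3 | ∀ i, |p i - c i| ≤ h i} ∩ {p | σ ≤ ε * bp c h p}) :=
    (Bc_c c h).inter_right (isClosed_le continuous_const (continuous_const.mul cb.continuous))
  have s1 : tsupport η ⊆ _ := closure_minimal (fun p hp => by
    have := Function.mem_support.1 hp
    have b : p ∈ Bo c h := mem_of_indicator_ne_zero this
    rw [hη, indicator_of_mem b] at this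
    refine ⟨fun i => (b i).le, show σ ≤ _ from not_lt.1 fun c => this (le_antisymm
      ((Gs_bd σ0 _).2.2.trans_eq (max_eq_right ?_)) (Gs_bd σ0 _).1)⟩
    linarith [show 0 ≤ φ p from n0 p]) K.isClosed
  have s2 : tsupport η ⊆ Bo c h := fun p hp => by_contra fun b => by
    have := (s1 hp).2
    rw [mem_ofPred_eq, bp_bd h0 (s1 hp).1 b] at this
    linarith
  have ev : ∀ p ∈ Bo c h, η =ᶠ[𝓝 p] fun p => Gs σ (ε * bp c h p - σ - φ p) := fun p hp =>
    ((Bo_o c h).eventually_mem hp).mono fun q hq => indicator_of_mem hq _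
  have t : Test Ω η := ⟨contDiff_iff_contDiffAt.2 fun p => by
    by_cases b : p ∈ tsupport η
    · exact ((Gs_c σ).comp (((contDiff_const.mul cb).sub contDiff_const).sub
        hφ.1)).contDiffAt.congr_of_eventuallyEq (ev p (s2 b))
    · exact contDiffAt_const.congr_of_eventuallyEq (notMem_tsupport_iff_eventuallyEq.1 b),
    K.of_isClosed_subset (isClosed_tsupport _) s1, s2.trans hB⟩
  refine ⟨t, ?_⟩
  have I := ps_ibp (fun i => π / 2 / h i) (fun i => -(π / 2 / h i * c i)) t
  have i3 := (((I 0).1.add (I 1).1).add (I 2).1).const_mul (2 * ε)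
  erw [add_mul, add_mul, ← (I 0).2, ← (I 1).2, ← (I 2).2]
  rw [← integral_add' (I 0).1 (I 1).1, ← integral_add' ((I 0).1.add (I 1).1) (I 2).1,
    ← integral_const_mul, Dt, Dt, ← integral_add (intD hφ) i3]
  refine integral_mono (intD (hφ.add t)) ((intD hφ).add i3) fun p => ?_
  simp only [fderiv_add (hφ.diff p) (t.diff p), Pi.add_apply]
  by_cases b : p ∈ tsupport η
  · obtain ⟨g, g0, g1, d⟩ := Gs_d σ (ε * bp c h p - σ - φ p)
    have := d.comp_hasFDerivAt p ((((cb.differentiable (by simp) p).hasFDerivAt.const_mul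
      ε).sub_const σ).sub (hφ.diff p).hasFDerivAt)
    rw [(ev p (s2 b)).fderiv_eq]
    erw [this.fderiv]
    rw [nsq, nsq]
    simp only [add_apply, smul_apply, sub_apply, smul_eq_mul, bp]
    have k : ∀ A B : ℝ, (B + g * (ε * A - B)) ^ 2 ≤ B ^ 2 + 2 * ε * (A * (g * (ε * A - B))) :=
      fun A B => by
        nlinarith [mul_nonneg (mul_nonneg g0 (sub_nonneg.2 g1)) (sq_nonneg (ε * A - B)),
          mul_nonneg g0 (sq_nonneg (ε * A - B))]
    rw [mul_add (2 * ε), mul_add (2 * ε)]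
    refine le_trans (add_le_add (add_le_add (k _ _) (k _ _)) (k _ _)) (le_of_eq ?_)
    ring
  · rw [(notMem_tsupport_iff_eventuallyEq.1 b).fderiv_eq]
    simp

lemma FG {δ : ℝ} (t : ℝ) : F δ t = √(t ^ 2 + δ ^ 2) - δ := by
  simp only [F, G, neg_sq]; ring

theorem lower (h0 : ∀ i, 0 < h i) (l0 : 0 < l) : ∃ ε > 0, ∀ (Ω : ℕ → Set (E 3)) (L : ℕ → ℝ)
    (φ : ℕ → E 3 → ℝ) (v : E 3 → ℝ), (∀ n, Bo c h ⊆ Ω n) → (∀ n, Test (Ω n) (φ n)) →
    (∀ n, Iq (Ω n) (L n)) → (∀ n, 0 ≤ L n) → Tendsto L atTop (𝓝 l) →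
    Tendsto (fun n => Dt (φ n)) atTop (𝓝 l) → (∀ᵐ x, Tendsto (fun n => φ n x) atTop (𝓝 (v x))) →
    ∫ x, P (v x) = 1 → ∀ᵐ x, x ∈ Bo c h → ε * bp c h x ≤ |v x| := by
  set Λ := (π / 2 / h 0) ^ 2 + (π / 2 / h 1) ^ 2 + (π / 2 / h 2) ^ 2
  have Λ0 : 0 ≤ Λ := by positivity
  obtain ⟨e, e0, -, he⟩ := small Λ0 (half_pos l0)
  refine ⟨e ^ 2, by positivity, fun Ω L φ v hB hφ hI L0 tL tD tv v1 => ?_⟩
  have σ0 : ∀ n : ℕ, 0 < 1 / ((n : ℝ) + 1) := fun n => by positivity
  have tw := fun n => (hφ n).comp (F_smooth (σ0 n)) (F_zero (σ0 n))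
  have B := fun n => bar (ε := e ^ 2) h0 (hB n) (tw n) (fun x => (F_bd (σ0 n) _).1) (σ0 n)
  set η := fun n : ℕ => (Bo c h).indicator fun p =>
    Gs (1 / (n + 1)) (e ^ 2 * bp c h p - 1 / (n + 1) - (F (1 / (n + 1)) ∘ φ n) p) with hη
  set z := (Bo c h).indicator fun p => max (e ^ 2 * bp c h p - |v p|) 0 with hz
  have m := (Bo_o c h).measurableSet
  have t1 : ∀ᵐ x, Tendsto (fun n : ℕ => (F (1 / (n + 1)) ∘ φ n) x) atTop (𝓝 |v x|) ∧
      Tendsto (fun n => η n x) atTop (𝓝 (z x)) := tv.mono fun x hx => by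
    have a : Tendsto (fun n : ℕ => (F (1 / (n + 1)) ∘ φ n) x) atTop (𝓝 |v x|) := by
      simpa [FG, Real.sqrt_sq_eq_abs] using ((hx.pow 2).add (t1n.pow 2)).sqrt.sub t1n
    refine ⟨a, ?_⟩
    by_cases b : x ∈ Bo c h
    · simp only [hη, hz, indicator_of_mem b]
      have a1 := (t1n.const_sub (e ^ 2 * bp c h x)).sub a
      refine tendsto_of_tendsto_of_tendsto_of_le_of_le (by
        simpa only [sub_zero] using (a1.sub t1n).max (tendsto_const_nhds (x := 0))) (by
        simpa only [sub_zero] using a1.max (tendsto_const_nhds (x := 0)))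
        (fun n => max_le (Gs_bd (σ0 n) _).2.1 (Gs_bd (σ0 n) _).1) fun n => (Gs_bd (σ0 n) _).2.2
    · simp [hη, hz, b]
  have i0 : Integrable ((Bo c h).indicator fun _ => e ^ 2) :=
    (integrable_indicator_iff m).2 (integrableOn_const (Bo_bd c h).measure_lt_top.ne)
  have mb : ∀ n, AEStronglyMeasurable (fun p => bp c h p * η n p) volume := fun n =>
    ((ps_c _ _).continuous.mul (B n).1.cont).aestronglyMeasurable
  have bd : ∀ n p, ‖bp c h p * η n p‖ ≤ (Bo c h).indicator (fun _ => e ^ 2) p := fun n p => by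
    by_cases b : p ∈ Bo c h
    · simp only [hη, indicator_of_mem b, norm_mul, Real.norm_eq_abs]
      rw [abs_of_nonneg (Gs_bd (σ0 n) _).1]
      refine (mul_le_of_le_one_left (Gs_bd (σ0 n) _).1 (bp_le p)).trans
        ((Gs_bd (σ0 n) _).2.2.trans (max_le ?_ (sq_nonneg e)))
      have := mul_le_of_le_one_right (sq_nonneg e) ((le_abs_self _).trans (bp_le (c := c) (h := h) p))
      linarith [σ0 n, show 0 ≤ (F (1 / (n + 1)) ∘ φ n) p from (F_bd (σ0 n) _).1]
    · simp [hη, b]
  have tz : ∀ᵐ p, Tendsto (fun n => bp c h p * η n p) atTop (𝓝 (bp c h p * z p)) :=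
    t1.mono fun x hx => hx.2.const_mul _
  have t2 := tendsto_integral_of_dominated_convergence _ mb i0
    (fun n => Eventually.of_forall (bd n)) tz
  have iz : Integrable fun p => bp c h p * z p :=
    i0.mono' (aestronglyMeasurable_of_tendsto_ae atTop mb tz)
      (tz.mono fun x hx => le_of_tendsto' hx.norm fun n => bd n x)
  obtain ⟨i1, k⟩ := fatou (fun n => (intP ((tw n).add (B n).1)).const_mul (L n))
    (fun n x => mul_nonneg (L0 n) (P0 _))
    (t1.mono fun x hx => tL.mul ((P_c.tendsto _).comp (hx.1.add hx.2)))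
    (fun n => ((hI n).lin (L0 n) ((tw n).add (B n).1)).trans (add_le_add_left
      (mul_le_mul_of_nonneg_left ((B n).2.trans (add_le_add_left (F_Dt (hφ n) (σ0 n)) _))
      (by norm_num)) _))
    (((tD.add ((t2.const_mul Λ).const_mul _)).const_mul _).add (tL.div_const 4))
  have iv : Integrable fun x => P (v x) := Integrable.of_integral_ne_zero (by rw [v1]; simp)
  have k1 : ∀ x, l * P (v x) + l / e * (e ^ 2 * (bp c h x * z x)) ≤ l * P (|v x| + z x) ∧
      0 ≤ bp c h x * z x ∧ (x ∈ Bo c h → bp c h x * z x = 0 → e ^ 2 * bp c h x ≤ |v x|) := by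
    intro x
    have pa : P |v x| = P (v x) := by simp [P]
    by_cases b : x ∈ Bo c h ∧ |v x| < e ^ 2 * bp c h x
    · have b0 : 0 < bp c h x := (mul_pos_iff_of_pos_left (pow_pos e0 2)).1
        ((abs_nonneg _).trans_lt b.2)
      have b1 := (le_abs_self _).trans (bp_le (c := c) (h := h) x)
      have b2 := sub_pos.2 b.2
      rw [hz, indicator_of_mem b.1, max_eq_left b2.le, add_sub_cancel]
      refine ⟨?_, by positivity, fun _ h => absurd h (by positivity)⟩
      rw [show l / e * (e ^ 2 * (bp c h x * (e ^ 2 * bp c h x - |v x|))) =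
        l * (e * bp c h x * (e ^ 2 * bp c h x - |v x|)) by field_simp, ← mul_add, P, P,
        abs_of_pos (show 0 < e ^ 2 * bp c h x by positivity)]
      gcongr
      have a1 := Real.sqrt_le_sqrt b.2.le
      have a2 : e * bp c h x ≤ √(e ^ 2 * bp c h x) := Real.le_sqrt_of_sq_le (by
        rw [mul_pow]; gcongr; nlinarith)
      nlinarith [mul_le_mul_of_nonneg_left a1 (abs_nonneg (v x)),
        mul_le_mul_of_nonneg_right a2 b2.le]
    · have : z x = 0 := by
        rw [hz, indicator_apply_eq_zero]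
        exact fun hx => max_eq_right (sub_nonpos.2 (not_lt.1 fun h => b ⟨hx, h⟩))
      simp only [this, mul_zero, add_zero, pa, le_refl, true_and]
      exact fun hx _ => not_lt.1 fun h => b ⟨hx, h⟩
  have k2 := integral_mono ((iv.const_mul l).add ((iz.const_mul _).const_mul _)) i1
    fun x => (k1 x).1
  simp only [Pi.add_apply] at k2
  rw [integral_add (iv.const_mul l) ((iz.const_mul _).const_mul _), integral_const_mul,
    integral_const_mul, integral_const_mul, v1, show l / e * (e ^ 2 * ∫ x, bp c h x * z x) =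
    l * e * ∫ x, bp c h x * z x by field_simp] at k2
  have k3 : 0 ≤ ∫ x, bp c h x * z x := integral_nonneg fun x => (k1 x).2.1
  have k4 : l * e * ∫ x, bp c h x * z x ≤ 0 := by
    nlinarith [mul_le_mul_of_nonneg_right he (mul_nonneg e0.le k3)]
  have k5 := (integral_eq_zero_iff_of_nonneg (fun x => (k1 x).2.1) iz).1
    (le_antisymm (nonpos_of_mul_nonpos_right k4 (by positivity)) k3)
  exact k5.mono fun x hx b => (k1 x).2.2 b hx

noncomputable def W (t : ℝ) : ℝ := P (1 / √|t|)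

lemma W_eq (t : ℝ) : W t = |t| ^ (-(3 / 4) : ℝ) := by
  rw [W, P_eq, abs_of_nonneg (by positivity), Real.sqrt_eq_rpow, one_div,
    ← Real.rpow_neg (abs_nonneg t), ← Real.rpow_mul (abs_nonneg t)]
  norm_num

theorem intW (h0 : ∀ i, 0 < h i) {ε : ℝ} (ε0 : 0 < ε) {v : E 3 → ℝ} (m : AEMeasurable v)
    (hv : ∀ᵐ x, x ∈ Bo c h → ε * bp c h x ≤ |v x|) :
    (∀ᵐ x, x ∈ Bo c h → v x ≠ 0) ∧ IntegrableOn (fun x => W (v x)) (Bo c h) := by
  have a0 : ∀ p ∈ Bo c h, ∀ i, 0 < (h i - |p i - c i|) / h i := fun p hp i =>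
    div_pos (sub_pos.2 (hp i)) (h0 i)
  have b := fun p hp => bp_ge h0 (fun i => (a0 p hp i).le) fun i => le_rfl
  have b0 := fun p hp => mul_pos (mul_pos (a0 p hp 0) (a0 p hp 1)) (a0 p hp 2)
  refine ⟨hv.mono fun x hx hp => abs_pos.1 ((mul_pos ε0 ((b0 x hp).trans_le (b x hp))).trans_le
    (hx hp)), ?_⟩
  let f : Fin 3 → ℝ → ℝ := fun i => (Ioc (c i - h i) (c i + h i)).indicator fun t =>
    h i ^ (3 / 4 : ℝ) * ((t - (c i - h i)) ^ (-(3 / 4) : ℝ) + (c i + h i - t) ^ (-(3 / 4) : ℝ))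
  have i1 : ∀ i, Integrable (f i) := fun i => by
    have r := intervalIntegral.intervalIntegrable_rpow' (a := 0) (b := 2 * h i) (r := -(3 / 4))
      (by norm_num)
    have r1 := r.comp_sub_right (c i - h i)
    have r2 := (r.comp_sub_left (c i + h i)).symm
    rw [zero_add, show 2 * h i + (c i - h i) = c i + h i by ring] at r1
    rw [sub_zero, show c i + h i - 2 * h i = c i - h i by ring] at r2
    exact (integrable_indicator_iff measurableSet_Ioc).2 ((r1.add r2).const_mul _).1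
  have i2 := ((PiLp.volume_preserving_ofLp (Fin 3)).integrable_comp_of_integrable
    (Integrable.fintype_prod i1)).const_mul (ε ^ (-(3 / 4) : ℝ))
  refine i2.integrableOn.mono' (AEMeasurable.aestronglyMeasurable (AEMeasurable.restrict ?_)) ?_
  · simp only [W_eq]; fun_prop
  rw [ae_restrict_iff' (Bo_o c h).measurableSet]
  filter_upwards [hv] with x hx hp
  have k : ∀ i, ((h i - |x i - c i|) / h i) ^ (-(3 / 4) : ℝ) ≤ f i (x i) := fun i => by
    have := abs_lt.1 (hp i)
    have := h0 i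
    have a1 : 0 ≤ (x i - (c i - h i)) ^ (-(3 / 4) : ℝ) := Real.rpow_nonneg (by linarith) _
    have a2 : 0 ≤ (c i + h i - x i) ^ (-(3 / 4) : ℝ) := Real.rpow_nonneg (by linarith) _
    simp only [f]
    rw [indicator_of_mem (by constructor <;> linarith), Real.div_rpow (sub_pos.2 (hp i)).le this.le,
      Real.rpow_neg this.le, div_inv_eq_mul, mul_comm]
    gcongr
    rcases abs_cases (x i - c i) with ⟨e, -⟩ | ⟨e, -⟩ <;> rw [e]
    · exact le_add_of_nonneg_of_le a1 (le_of_eq (by congr 1; ring))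
    · exact le_add_of_le_of_nonneg (le_of_eq (by congr 1; ring)) a2
  rw [W_eq, Real.norm_of_nonneg (by positivity)]
  refine (Real.rpow_le_rpow_of_nonpos (mul_pos ε0 (b0 x hp))
    ((mul_le_mul_of_nonneg_left (b x hp) ε0.le).trans (hx hp)) (by norm_num)).trans ?_
  have a := a0 x hp
  rw [Real.mul_rpow ε0.le (b0 x hp).le, Real.mul_rpow (mul_pos (a 0) (a 1)).le (a 2).le,
    Real.mul_rpow (a 0).le (a 1).le, Function.comp, Fin.prod_univ_three]
  have n := fun i => Real.rpow_nonneg (a i).le (-(3 / 4))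
  exact mul_le_mul_of_nonneg_left (mul_le_mul (mul_le_mul (k 0) (k 1) (n 1) ((n 0).trans (k 0)))
    (k 2) (n 2) (mul_nonneg ((n 0).trans (k 0)) ((n 1).trans (k 1)))) (by positivity)

theorem nojump {S : Set (E 3)} (o : IsOpen S) (cv : Convex ℝ S) (bd : Bornology.IsBounded S)
    (ne : S.Nonempty) (p : Hs O) {a : ℝ} (a0 : 0 < a) (hv : ∀ᵐ x, x ∈ S → a ≤ |p.1.1 x|) :
    (∀ᵐ x, x ∈ S → a ≤ p.1.1 x) ∨ ∀ᵐ x, x ∈ S → p.1.1 x ≤ -a := by
  obtain ⟨φ, h, t1, -, t3⟩ := seq_ae p
  obtain ⟨K, hK⟩ := exK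
  have K0 : 0 ≤ K := (sq_nonneg _).trans (hK 0)
  obtain ⟨D, hD⟩ := isBounded_iff.1 bd
  have fin := bd.measure_lt_top (μ := volume)
  have : IsFiniteMeasure (volume.restrict S) := ⟨by simpa using fin⟩
  have V : 0 < volume.real S := ENNReal.toReal_pos (o.measure_pos volume ne).ne' fin.ne
  have m := o.measurableSet
  simp only [← ae_restrict_iff' m] at hv ⊢
  replace t3 := ae_restrict_of_ae (s := S) t3
  let f : ℕ → E 3 → ℝ := fun n x => th (φ n x / a + 1 / 2)
  have fc : ∀ n, ContDiff ℝ 1 (f n) := fun n => th_c.comp (((h n).c1.div_const a).add contDiff_const)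
  have tf : ∀ᵐ x ∂volume.restrict S, Tendsto (fun n => f n x) atTop
      (𝓝 (th (p.1.1 x / a + 1 / 2))) := t3.mono fun x hx =>
    (th_c.continuous.tendsto _).comp ((hx.div_const a).add_const _)
  have tm := (tendsto_integral_of_dominated_convergence (fun _ => π / 2)
    (fun n => (fc n).continuous.aestronglyMeasurable) (integrable_const _)
    (fun n => Eventually.of_forall fun x => by
      have := Real.pi_div_two_pos
      exact (Real.norm_of_nonneg (mul_nonneg this.le (Real.smoothTransition.nonneg _))).trans_le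
        (mul_le_of_le_one_right this.le (Real.smoothTransition.le_one _))) tf).div_const
      (volume.real S)
  have cd := th_c.continuous_deriv le_rfl
  have iG : Integrable fun x => ‖p.1.2 x‖ ^ 2 := (Lp.memLp p.1.2).norm.integrable_sq
  have ig : ∀ n, AEStronglyMeasurable (fun x => deriv th (φ n x / a + 1 / 2) ^ 2 * ‖p.1.2 x‖ ^ 2)
      (volume.restrict S) := fun n => (((cd.comp (((h n).cont.div_const a).add
        continuous_const)).pow 2).aestronglyMeasurable.mul iG.1).restrict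
  have bg : ∀ n x, ‖deriv th (φ n x / a + 1 / 2) ^ 2 * ‖p.1.2 x‖ ^ 2‖ ≤ K * ‖p.1.2 x‖ ^ 2 :=
    fun n x => by
      rw [Real.norm_of_nonneg (by positivity)]
      exact mul_le_mul_of_nonneg_right (hK _) (sq_nonneg _)
  have tg := tendsto_integral_of_dominated_convergence (f := fun _ => 0) _ ig
    (iG.const_mul K).integrableOn (fun n => Eventually.of_forall (bg n)) (by
      filter_upwards [t3, hv] with x hx hx'
      have := (((cd.tendsto _).comp ((hx.div_const a).add_const (1 / 2))).pow 2).mul_const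
        (‖p.1.2 x‖ ^ 2)
      rwa [thd, zero_pow two_ne_zero, zero_mul] at this
      rintro ⟨h1, h2⟩
      have := (abs_div (p.1.1 x) a).symm.trans_le (abs_le.2 ⟨show -(1 / 2) ≤ _ by linarith,
        show _ ≤ 1 / 2 by linarith⟩)
      rw [abs_of_pos a0, div_le_iff₀ a0] at this
      linarith)
  have td := (((cont_snd.tendsto _).comp (t1.sub_const p)).const_mul K).add tg
  have key : ∀ n, ∫ y in S, ‖fderiv ℝ (fun x => f n x - (∫ x in S, f n x) / volume.real S) y‖ ^ 2 ≤
      2 / a ^ 2 * (K * ‖(pair (h n) - p).1.2‖ ^ 2 +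
        ∫ x in S, deriv th (φ n x / a + 1 / 2) ^ 2 * ‖p.1.2 x‖ ^ 2) := fun n => by
    have i1 : Integrable fun x => ‖(pair (h n) - p).1.2 x‖ ^ 2 := (Lp.memLp _).norm.integrable_sq
    have i2 := (iG.const_mul K).integrableOn.mono' (ig n) (Eventually.of_forall (bg n))
    rw [L2_norm_sq]
    refine le_trans ?_ (mul_le_mul_of_nonneg_left (add_le_add_left (mul_le_mul_of_nonneg_left
      (setIntegral_le_integral (s := S) i1 (Eventually.of_forall fun _ => sq_nonneg _)) K0) _)
      (by positivity))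
    rw [← integral_const_mul, ← integral_add (i1.integrableOn.const_mul K) i2, ← integral_const_mul]
    refine integral_mono_of_nonneg (Eventually.of_forall fun _ => sq_nonneg _)
      (((i1.integrableOn.const_mul K).add i2).const_mul _) (ae_restrict_of_ae ?_)
    filter_upwards [Lp.coeFn_sub (pair (h n)).1.2 p.1.2, pair_snd (h n)] with x e1 e2
    change _ ≤ _ * (_ * ‖((pair (h n)).1.2 - p.1.2 : Lp _ 2 _) x‖ ^ 2 + _)
    have d := ((th_c.differentiable one_ne_zero _).hasDerivAt.comp_hasFDerivAt x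
      (((h n).diff x).hasFDerivAt.mul_const a⁻¹ |>.add_const (1 / 2))).sub_const
      ((∫ x in S, f n x) / volume.real S)
    simp only [← div_eq_mul_inv] at d
    erw [d.fderiv]
    rw [e1, Pi.sub_apply, e2, norm_smul, norm_smul, mul_pow, mul_pow, Real.norm_eq_abs, sq_abs,
      Real.norm_eq_abs, sq_abs, ← norm_gradient, inv_pow]
    have q := pow_le_pow_left₀ (norm_nonneg _) (norm_le_insert' (gradient (φ n) x) (p.1.2 x)) 2
    have q1 := mul_le_mul_of_nonneg_right (hK (φ n x / a + 1 / 2))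
      (sq_nonneg ‖gradient (φ n) x - p.1.2 x‖)
    have q2 := mul_le_mul_of_nonneg_left (show ‖gradient (φ n) x‖ ^ 2 ≤ 2 * (‖p.1.2 x‖ ^ 2 +
      ‖gradient (φ n) x - p.1.2 x‖ ^ 2) by
        nlinarith [sq_nonneg (‖p.1.2 x‖ - ‖gradient (φ n) x - p.1.2 x‖)])
      (sq_nonneg (deriv th (φ n x / a + 1 / 2)))
    rw [mul_left_comm, div_eq_inv_mul 2, mul_assoc]
    exact mul_le_mul_of_nonneg_left (by linarith) (by positivity)
  obtain ⟨i, k⟩ := fatou (μ := volume.restrict S)
    (fun n => intb bd fin (((fc n).continuous.sub continuous_const).pow 2))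
    (fun n x => sq_nonneg _) (tf.mono fun x hx => (hx.sub tm).pow 2)
    (fun n => (poinc o cv bd ne (D := D) (fun x hx y hy => dist_eq_norm x y ▸ hD hx hy)
      ((fc n).sub contDiff_const) (by
        rw [integral_sub (intb bd fin (fc n).continuous) (integrable_const _), setIntegral_const,
          smul_eq_mul, mul_div_cancel₀ _ V.ne', sub_self])).trans
      (mul_le_mul_of_nonneg_left (key n) (by positivity))) ((td.const_mul (2 / a ^ 2)).const_mul _)
  simp only [sub_self, ZeroMemClass.coe_zero, Prod.snd_zero, norm_zero, integral_zero, mul_zero,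
    zero_pow two_ne_zero, add_zero] at k
  have k5 := (integral_eq_zero_iff_of_nonneg (fun x => sq_nonneg _) i).1
    (le_antisymm k (integral_nonneg fun x => sq_nonneg _))
  have := Real.pi_div_two_pos
  by_cases z : (∫ x in S, th (p.1.1 x / a + 1 / 2)) / volume.real S = 0
  · refine .inr ?_
    filter_upwards [k5, hv] with x h1 h2
    refine (le_abs'.1 h2).resolve_right fun h3 => ?_
    have := (one_le_div a0).2 h3
    rw [z, th1 (by linarith)] at h1
    simp at h1
  · refine .inl ?_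
    filter_upwards [k5, hv] with x h1 h2
    refine (le_abs'.1 h2).resolve_left fun h3 => z ?_
    have := (div_le_iff₀ a0).2 (h3.trans_eq (neg_one_mul a).symm)
    rw [th0 (by linarith)] at h1
    simpa using h1

end Pool.Agent.H.MP_0fb79d_an
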