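import Pool.Agent.H.MP_0fb79d_an.C

set_option linter.unusedSectionVars false
set_option linter.dupNamespace false

namespace Pool.Agent.H.MP_0fb79d_an

open MeasureTheory Filter Topology Set Metric Pool.Agent.Lib.helper10.H10 Pool.Agent.H.MP_eb4995_an
open scoped ENNReal NNReal
open Pool.Agent.H.MP_21f5b8_an (tmul small pair_lin thin)
open Pool.Agent.H.MP_d01728_an (th th_c th0 th1 thd exK cm sm ims0 tk_c tk_d)

attribute [local instance] fact32 fact6 fact2

variable {O Ω : Set (E 3)} {φ ψ : E 3 → ℝ} {l : ℝ} {c h : Fin 3 → ℝ} {J : Hs O →L[ℝ] L32}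

def Crit (J : Hs O →L[ℝ] L32) (l : ℝ) (p : Hs O) : Prop :=
  ‖J p‖ = 1 ∧ ∀ r : Hs O, inner ℝ p.1.2 r.1.2 = l * ∫ x, ff (p.1.1 x) * r.1.1 x

lemma Crit.en (hJ : ∀ p, J p =ᵐ[volume] p.1.1) {p : Hs O} (h : Crit J l p) : ‖p.1.2‖ ^ 2 = l := by
  rw [← real_inner_self_eq_norm_sq, h.2]
  simp only [ff_mul, JA1 hJ, h.1]
  simp [P]

lemma ff_neg (t : ℝ) : ff (-t) = -ff t := by simp [ff, neg_div]

lemma ff_sq' {t : ℝ} (h : 0 ≤ t) : ff (t ^ 2) = t := by
  rw [ff, abs_of_nonneg (sq_nonneg t), Real.div_sqrt, Real.sqrt_sq h]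

lemma ff_smul {s : ℝ} (h : 0 < s) (t : ℝ) : ff (s ^ 2 * t) = s * ff t := by
  rw [ff, ff, abs_mul, Real.sqrt_mul (abs_nonneg _), abs_of_nonneg (sq_nonneg s), Real.sqrt_sq h.le,
    sq, mul_assoc, mul_div_mul_left _ _ h.ne', mul_div_assoc]

lemma ffb {x : ℝ} (hx : x ≠ 0) (y : ℝ) : (ff y - ff x) * (y - x) ≤ 2 * ((y - x) ^ 2 / √|x|) ∧
    (x ^ 2 / 4 ≤ x * y → (ff y - ff x) * (y - x) ≤ 2 / 3 * ((y - x) ^ 2 / √|x|)) := by
  wlog h : 0 < x generalizing x y
  · have := this (neg_ne_zero.2 hx) (-y) (neg_pos.2 ((not_lt.1 h).lt_of_ne hx))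
    rw [ff_neg, ff_neg, abs_neg, show (-y - -x) ^ 2 = (y - x) ^ 2 by ring, neg_sq, neg_mul_neg,
      show (-ff y - -ff x) * (-y - -x) = (ff y - ff x) * (y - x) by ring] at this
    exact this
  obtain ⟨b, b0, rfl⟩ : ∃ b, 0 < b ∧ x = b ^ 2 := ⟨_, Real.sqrt_pos.2 h, (Real.sq_sqrt h.le).symm⟩
  rw [abs_of_pos h, Real.sqrt_sq b0.le, ff_sq' b0.le, ← mul_div_assoc, ← mul_div_assoc,
    le_div_iff₀ b0, le_div_iff₀ b0]
  rcases le_total 0 y with c | c
  · obtain ⟨a, a0, rfl⟩ : ∃ a, 0 ≤ a ∧ y = a ^ 2 := ⟨_, Real.sqrt_nonneg _, (Real.sq_sqrt c).symm⟩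
    rw [ff_sq' a0]
    have k : 0 ≤ (a - b) ^ 2 * (a + b) := by positivity
    refine ⟨by nlinarith [mul_nonneg k a0, mul_nonneg k b0.le], fun h' => ?_⟩
    have : b ≤ 2 * a := (sq_le_sq₀ b0.le (by positivity)).1 (by nlinarith)
    nlinarith [mul_nonneg k (sub_nonneg.2 this)]
  · obtain ⟨a, a0, rfl⟩ : ∃ a, 0 ≤ a ∧ y = -a ^ 2 :=
      ⟨_, Real.sqrt_nonneg _, by rw [Real.sq_sqrt (neg_nonneg.2 c), neg_neg]⟩
    rw [ff_neg, ff_sq' a0]
    have k : 0 ≤ a ^ 2 + b ^ 2 := by positivity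
    refine ⟨by nlinarith [mul_nonneg k (sq_nonneg (a - b)), mul_nonneg k k], fun h' => ?_⟩
    nlinarith [mul_nonneg h.le (sq_nonneg a), mul_pos h h]

lemma young {x y : ℝ} (x0 : 0 ≤ x) (y0 : 0 ≤ y) : x * y ≤ x ^ 3 + P y := by
  rw [P, abs_of_nonneg y0]
  rcases le_total x √y with c | c
  · exact le_add_of_nonneg_of_le (by positivity) (by rw [mul_comm]; gcongr)
  · refine le_add_of_le_of_nonneg ?_ (by positivity)
    have := Real.sqrt_le_left x0 |>.1 c
    nlinarith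

theorem iso (hO : Bornology.IsBounded O) (hm : MeasurableSet O) (hJ : ∀ p, J p =ᵐ[volume] p.1.1)
    (hI : Iq O l) (l0 : 0 < l) (hw : ∀ p : Hs O, ‖J p‖ = 1 → ‖p.1.2‖ ^ 2 = l →
      (∀ᵐ x, x ∈ O → p.1.1 x ≠ 0) ∧ IntegrableOn (fun x => W (p.1.1 x)) O) :
    ¬AccPt l (𝓟 {m | ∃ p, Crit J m p}) := fun hA => by
  obtain ⟨L, tL, hL⟩ := exists_seq_forall_of_frequently (accPt_iff_frequently.1 hA)
  choose Q hQ using fun n => (hL n).2
  have eQ := fun n => (hQ n).en hJ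
  have L0 : ∀ n, 0 < L n := fun n => by
    have := hI.H hJ (Q n)
    rw [(hQ n).1, eQ] at this
    linarith
  obtain ⟨κ, hκ, v, -, v1, v2, tv⟩ := conv hO hm hJ (fun n => (hQ n).1) l0.le
    (by simpa only [eQ] using tL) fun η η0 => ⟨1, one_pos, 0, fun n _ m _ _ =>
      le_trans (mul_le_mul_of_nonneg_right (by linarith) (sq_nonneg _)) (hI.H hJ _)⟩
  obtain ⟨w1, w2⟩ := hw v v1 v2
  have ev := fun r => euler hO hm hJ l0.le v1 v2 r (Eventually.of_forall fun t => hI.H hJ _)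
  obtain ⟨J6, C, hJ6, hC⟩ := exists_J (N := 3) (by norm_num) hO 6 (by norm_num)
  obtain ⟨θ, θ0, θ1, hθ⟩ := small (M := 2 * l * C ^ 6) (η := 1 / 12) (by positivity) (by norm_num)
  have tc : Tendsto (fun n => (l / L (κ n)) ^ 2) atTop (𝓝 1) := by
    have := (tendsto_const_nhds (x := l).div (tL.comp hκ.tendsto_atTop) l0.ne').pow 2
    rwa [div_self l0.ne', one_pow] at this
  let S : ℕ → Set (E 3) := fun n =>
    {x | v.1.1 x * ((l / L (κ n)) ^ 2 * (Q (κ n)).1.1 x) < v.1.1 x ^ 2 / 4} ∩ O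
  have mS : ∀ n, MeasurableSet (S n) := fun n => by
    have := (Lp.stronglyMeasurable v.1.1).measurable
    have := (Lp.stronglyMeasurable (Q (κ n)).1.1).measurable
    exact (measurableSet_lt (by fun_prop) (by fun_prop)).inter hm
  have iS : ∀ n, Integrable ((S n).indicator fun x => W (v.1.1 x)) := fun n =>
    (integrable_indicator_iff (mS n)).2 (w2.mono_set inter_subset_right)
  have tS := tendsto_integral_of_dominated_convergence (f := fun _ => 0) _ (fun n => (iS n).1)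
    ((integrable_indicator_iff hm).2 w2) (fun n => Eventually.of_forall fun x =>
      (Real.norm_of_nonneg (indicator_nonneg (fun _ _ => P0 _) x)).trans_le
        (indicator_le_indicator_of_subset inter_subset_right (fun _ => P0 _) x)) (by
      filter_upwards [tv, w1] with x a b
      by_cases c : x ∈ O
      · have := pow_pos (abs_pos.2 (b c)) 2
        refine tendsto_const_nhds.congr' ((((tc.mul a).const_mul (v.1.1 x)).eventually
          (lt_mem_nhds (a := v.1.1 x ^ 2 / 4) (by rw [sq_abs] at this; nlinarith))).mono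
          fun n hn => (indicator_of_notMem (fun h => lt_asymm hn h.1) _).symm)
      · simp [S, c])
  rw [integral_zero] at tS
  obtain ⟨n, hn⟩ := ((tS.const_mul (2 * l * P θ⁻¹)).eventually
    (gt_mem_nhds (a := 1 / 12) (by norm_num))).exists
  have s0 := div_pos l0 (L0 (κ n))
  set d := (l / L (κ n)) ^ 2 • Q (κ n) - v with hd
  have ed : ∀ᵐ x, d.1.1 x = (l / L (κ n)) ^ 2 * (Q (κ n)).1.1 x - v.1.1 x := by
    filter_upwards [Lp.coeFn_sub ((l / L (κ n)) ^ 2 • (Q (κ n)).1.1) v.1.1,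
      Lp.coeFn_smul ((l / L (κ n)) ^ 2) (Q (κ n)).1.1] with x a b
    exact a.trans (by rw [Pi.sub_apply, b]; rfl)
  rcases (sq_nonneg ‖d.1.2‖).eq_or_lt with z | z
  · have := hI.H hJ d
    rw [← z, hd, map_sub, map_smul] at this
    have := congrArg norm (sub_eq_zero.1 (norm_eq_zero.1 (pow_eq_zero_iff two_ne_zero |>.1
      (le_antisymm (nonpos_of_mul_nonpos_right this l0) (sq_nonneg _)))))
    rw [norm_smul, (hQ _).1, v1, mul_one, Real.norm_of_nonneg (sq_nonneg _),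
      pow_eq_one_iff_of_nonneg s0.le two_ne_zero, div_eq_one_iff_eq (L0 _).ne'] at this
    exact (hL _).1 this.symm
  set e := ‖d.1.2‖ ^ 2 with he
  obtain ⟨p1, p2⟩ := picone hJ hI l0.le v1 v2 d
  have i6 : Integrable fun x => d.1.1 x ^ 6 := by
    refine ((Lp.memLp (J6 d)).integrable_norm_rpow (by simp) (by simp)).congr ?_
    filter_upwards [hJ6 d] with x hx
    rw [hx]; simp [(by decide : Even 6).pow_abs]
  have e6 : ∫ x, d.1.1 x ^ 6 ≤ C ^ 6 * e ^ 3 := by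
    rw [he, ← pow_mul, ← mul_pow]
    refine le_trans (le_of_eq ?_) (pow_le_pow_left₀ (norm_nonneg _) (hC d) 6)
    rw [norm_pow_even (by norm_num) (by decide) (by norm_num)]
    exact integral_congr_ae ((hJ6 d).mono fun x hx => by simp only [hx])
  have i1 := ((intff hO hm (Q (κ n)) d).const_mul ((l / L (κ n)) ^ 2 * L (κ n))).sub
    ((intff hO hm v d).const_mul l)
  have i2 := ((p1.const_mul (2 / 3)).add (i6.const_mul (2 * l * θ ^ 3 / e ^ 2))).add
    ((iS n).const_mul (2 * l * P θ⁻¹ * e))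
  have k := integral_mono_ae i1 i2 (by
    filter_upwards [ed, w1, zero_off v, zero_off d] with x a b z1 z2
    simp only [Pi.add_apply, Pi.sub_apply]
    have q1 : 0 ≤ 2 * l * θ ^ 3 / e ^ 2 * d.1.1 x ^ 6 := by positivity
    have q2 : 0 ≤ l * (d.1.1 x ^ 2 / √|v.1.1 x|) := by positivity
    by_cases c : x ∈ O
    · obtain ⟨f1, f2⟩ := ffb (b c) ((l / L (κ n)) ^ 2 * (Q (κ n)).1.1 x)
      rw [← a, ff_smul s0] at f1 f2
      rw [show (l / L (κ n)) ^ 2 * L (κ n) = l * (l / L (κ n)) by field_simp [(L0 _).ne']]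
      by_cases c' : x ∈ S n
      · have := mul_le_mul_of_nonneg_left (young (x := θ / e * d.1.1 x ^ 2)
          (y := θ⁻¹ * (1 / √|v.1.1 x|)) (by positivity) (by positivity)) (mul_pos l0 z).le
        rw [P_smul, ← W, mul_add, show l * e * (θ / e * d.1.1 x ^ 2 * (θ⁻¹ * (1 / √|v.1.1 x|))) =
          l * (d.1.1 x ^ 2 / √|v.1.1 x|) by field_simp, show l * e * (θ / e * d.1.1 x ^ 2) ^ 3 =
          (2 * l * θ ^ 3 / e ^ 2 * d.1.1 x ^ 6) / 2 by field_simp] at this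
        rw [indicator_of_mem c']
        linarith [mul_le_mul_of_nonneg_left f1 l0.le]
      · rw [indicator_of_notMem c']
        linarith [mul_le_mul_of_nonneg_left (f2 (not_lt.1 fun h => c' ⟨h, c⟩)) l0.le]
    · simp [(z2 c).1, S, c])
  rw [integral_sub' ((intff hO hm (Q (κ n)) d).const_mul _) ((intff hO hm v d).const_mul l),
    integral_add' ((p1.const_mul _).add (i6.const_mul _)) ((iS n).const_mul _),
    integral_add' (p1.const_mul _) (i6.const_mul _), integral_const_mul, integral_const_mul l,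
    integral_const_mul (2 / 3), integral_const_mul (_ / _), integral_const_mul (_ * e), ← ev,
    mul_assoc, ← (hQ _).2, ← real_inner_smul_left, ← inner_sub_left] at k
  change inner ℝ d.1.2 d.1.2 ≤ _ at k
  rw [real_inner_self_eq_norm_sq, ← he] at k
  have k1 : 2 * l * θ ^ 3 / e ^ 2 * ∫ x, d.1.1 x ^ 6 ≤ θ * (2 * l * C ^ 6) * e := by
    refine (mul_le_mul_of_nonneg_left e6 (by positivity)).trans ?_
    rw [show 2 * l * θ ^ 3 / e ^ 2 * (C ^ 6 * e ^ 3) = θ ^ 3 * (2 * l * C ^ 6) * e by field_simp]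
    gcongr
    exact pow_le_of_le_one θ0.le θ1 (by norm_num)
  nlinarith [mul_le_mul_of_nonneg_right hθ z.le, mul_lt_mul_of_pos_right hn z]

end Pool.Agent.H.MP_0fb79d_an
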