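import Pool.Agent.H.MP_0fb79d_an.D

set_option linter.unusedSectionVars false
set_option linter.dupNamespace false

namespace Pool.Agent.H.MP_0fb79d_an

open MeasureTheory Filter Topology Set Metric Pool.Agent.Lib.helper10.H10 Pool.Agent.H.MP_eb4995_an
open scoped ENNReal NNReal Real
open Pool.Agent.H.MP_21f5b8_an (tmul small pair_lin thin tst)
open Pool.Agent.H.MP_d01728_an (th th_c th0 th1 thd exK cm sm ims0 tk_c tk_d)

attribute [local instance] fact32 fact6 fact2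

variable {O Ω : Set (E 3)} {φ ψ : E 3 → ℝ} {l : ℝ} {c h : Fin 3 → ℝ} {J : Hs O →L[ℝ] L32}

noncomputable def tw (h : Fin 3 → ℝ) (i : Fin 3) : ℝ := 2 / 3 * h i

noncomputable def Tb (c h : Fin 3 → ℝ) : Lp ℝ 2 (volume : Measure (E 3)) →L[ℝ] ℝ :=
  innerSL ℝ (indicatorConstLp 2 (Bo_o c (tw h)).measurableSet (Bo_bd c _).measure_lt_top.ne 1)

lemma Tb_eq (u : Lp ℝ 2 (volume : Measure (E 3))) : Tb c h u = ∫ x in Bo c (tw h), u x :=
  L2.inner_indicatorConstLp_one _ _ _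

lemma Tb_pair (hφ : Test Ω φ) : Tb c h (pair hφ).1.1 = ∫ x in Bo c (tw h), φ x :=
  Tb_eq _ |>.trans (integral_congr_ae (ae_restrict_of_ae (pair_fst hφ)))

lemma Tb_c : Continuous fun p : Hs O => Tb c h p.1.1 := by fun_prop

lemma Bo_ne (h0 : ∀ i, 0 < h i) : WithLp.toLp 2 c ∈ Bo c h := fun i => by simpa using h0 i

lemma sgn (h0 : ∀ i, 0 < h i) {ε : ℝ} (ε0 : 0 < ε) (p : Hs O)
    (hv : ∀ᵐ x, x ∈ Bo c h → ε * bp c h x ≤ |p.1.1 x|) :
    ∃ s : ℝ, (∀ᵐ x, x ∈ Bo c (tw h) → 0 < s * p.1.1 x) ∧ 0 < s * Tb c h p.1.1 := by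
  have t0 : ∀ i, 0 < tw h i := fun i => mul_pos (by norm_num) (h0 i)
  have a0 : 0 < ε * (1 / 3 * (1 / 3) * (1 / 3)) := by positivity
  have fin := (Bo_bd c (tw h)).measure_lt_top (μ := volume)
  have : IsFiniteMeasure (volume.restrict (Bo c (tw h))) := ⟨by simpa using fin⟩
  suffices ∃ s : ℝ, ∀ᵐ x, x ∈ Bo c (tw h) → ε * (1 / 3 * (1 / 3) * (1 / 3)) ≤ s * p.1.1 x by
    obtain ⟨s, hs⟩ := this
    refine ⟨s, hs.mono fun x hx b => a0.trans_le (hx b), ?_⟩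
    rw [Tb_eq, ← integral_const_mul]
    refine lt_of_lt_of_le ?_ (integral_mono_ae (integrable_const _) ((((Lp.memLp p.1.1).restrict
      _).integrable one_le_two).const_mul s) ((ae_restrict_iff' (Bo_o c _).measurableSet).2 hs))
    rw [setIntegral_const]
    exact mul_pos (ENNReal.toReal_pos ((Bo_o c _).measure_pos volume ⟨_, Bo_ne t0⟩).ne' fin.ne) a0
  rcases nojump (Bo_o c (tw h)) (Bo_cv _ _) (Bo_bd _ _) ⟨_, Bo_ne t0⟩ p a0 (hv.mono fun x hx b =>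
    le_trans (mul_le_mul_of_nonneg_left (bp_ge h0 (a := fun _ => 1 / 3) (fun _ => by norm_num)
      fun i => (le_div_iff₀ (h0 i)).2 (by linarith [show _ < 2 / 3 * h i from b i])) ε0.le)
      (hx fun i => by linarith [show _ < 2 / 3 * h i from b i, h0 i])) with k | k
  · exact ⟨1, by simpa only [one_mul] using k⟩
  · exact ⟨-1, by simpa only [neg_one_mul, le_neg] using k⟩

lemma P1 : P 1 = 1 := by simp [P]

lemma JT1 (hJ : ∀ p, J p =ᵐ[volume] p.1.1) (hφ : Test O φ) (a : ∫ x, P (φ x) = 1) :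
    ‖J (pair hφ)‖ = 1 := by
  have := P43 ‖J (pair hφ)‖
  rw [← JT hJ, a, Real.one_rpow] at this
  exact (pow_eq_one_iff_of_nonneg (norm_nonneg _) two_ne_zero).1 this.symm

theorem gap (hO : Bornology.IsBounded O) (hm : MeasurableSet O) (hJ : ∀ p, J p =ᵐ[volume] p.1.1)
    {Ω : ℕ → Set (E 3)} (an : Antitone Ω) (s : ∀ n, Ω n ⊆ O) {L : ℕ → ℝ} (hI : ∀ n, Iq (Ω n) (L n))
    (L0 : ∀ n, 0 ≤ L n) (tL : Tendsto L atTop (𝓝 l)) (l0 : 0 < l) (h0 : ∀ i, 0 < h i)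
    (hB : ∀ n, Bo c h ⊆ Ω n) : ∃ γ > 0, ∃ N, ∀ n ≥ N, ∀ φ, Test (Ω n) φ → ∫ x, P (φ x) = 1 →
      Dt φ ≤ l + γ → γ ≤ |∫ x in Bo c (tw h), φ x| := by
  by_contra! hc
  choose ν hν φ hφ a1 a2 a3 using fun k : ℕ => hc (1 / (k + 1)) (by positivity) k
  have tν := tendsto_atTop_mono hν tendsto_id
  have tD : Tendsto (fun k => Dt (φ k)) atTop (𝓝 l) :=
    tendsto_of_tendsto_of_tendsto_of_le_of_le (tL.comp tν) (by simpa using t1n.const_add l)
      (fun k => by simpa [a1] using hI _ _ (hφ k)) a2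
  have hφ' := fun k => (hφ k).mono (s _)
  obtain ⟨κ, hκ, p, t, p1, -, tv⟩ := conv hO hm hJ (Q := fun k => pair (hφ' k))
    (fun k => JT1 hJ _ (a1 k)) l0.le (by simpa only [pair_norm_snd] using tD) fun η η0 => by
      obtain ⟨N, hN⟩ := (tL.eventually (lt_mem_nhds (sub_lt_self l η0))).exists
      refine ⟨1, one_pos, N, fun n hn m hm _ => ?_⟩
      have := hI N _ (((hφ n).mono (an (hn.trans (hν n)))).add
        (((hφ m).mono (an (hm.trans (hν m)))).smul 1))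
      rw [JT hJ ((hφ' n).add ((hφ' m).smul 1)), P43, ← pair_norm_snd ((hφ' n).add
        ((hφ' m).smul 1)), pair_lin (hφ' n) (hφ' m), one_smul] at this
      exact (mul_le_mul_of_nonneg_right hN.le (sq_nonneg _)).trans this
  obtain ⟨ε, ε0, hε⟩ := lower (c := c) h0 l0
  have tκ := hκ.tendsto_atTop
  obtain ⟨σ, -, hσ⟩ := sgn h0 ε0 p (hε (fun n => Ω (ν (κ n))) (fun n => L (ν (κ n)))
    (fun n => φ (κ n)) _ (fun n => hB _) (fun n => hφ _) (fun n => hI _) (fun n => L0 _)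
    (tL.comp (tν.comp tκ)) (tD.comp tκ) (by
      filter_upwards [tv, ae_all_iff.2 fun n => pair_fst (hφ' n)] with x a b
      exact a.congr fun n => b _) (by rw [JA1 hJ, p1, P1]))
  have := le_of_tendsto_of_tendsto' ((Tb_c (c := c) (h := h).tendsto p).comp t).abs (t1n.comp tκ)
    fun n => by simpa only [Function.comp, Tb_pair] using (a3 _).le
  simp [abs_nonpos_iff.1 this] at hσ

lemma gapH (hJ : ∀ p, J p =ᵐ[volume] p.1.1) {γ M : ℝ} (g : ∀ φ, Test O φ → ∫ x, P (φ x) = 1 →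
    Dt φ ≤ M → γ ≤ |∫ x in Bo c (tw h), φ x|) (q : Hs O) (q1 : ‖J q‖ = 1) (q2 : ‖q.1.2‖ ^ 2 < M) :
    γ ≤ |Tb c h q.1.1| := not_lt.1 fun q3 => by
  obtain ⟨φ, hφ, t⟩ := exists_seq q
  have tJ := (J.continuous.norm.tendsto q).comp t
  rw [q1] at tJ
  obtain ⟨k, ⟨k1, k2⟩, k3⟩ := (((tJ.eventually (lt_mem_nhds one_pos)).and
    (((cont_snd.tendsto q).comp t).eventually_lt ((tJ.pow 2).const_mul M) (by simpa using q2))).and
    (((Tb_c (c := c) (h := h).tendsto q).comp t).abs.eventually_lt (tJ.const_mul γ)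
      (by simpa using q3))).exists
  simp only [Function.comp, Tb_pair, pair_norm_snd] at k1 k2 k3
  have := g _ ((hφ k).smul ‖J (pair (hφ k))‖⁻¹) (by
    simp only [Pi.smul_apply, smul_eq_mul, P_smul, integral_const_mul]
    rw [JT hJ (hφ k), ← P_smul, inv_mul_cancel₀ k1.ne', P1]) (by
    rw [Dt_smul (hφ k), inv_pow, inv_mul_le_iff₀ (by positivity), mul_comm]; exact k2.le)
  simp only [Pi.smul_apply, smul_eq_mul, integral_const_mul] at this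
  rw [abs_mul, abs_of_pos (inv_pos.2 k1), le_inv_mul_iff₀ k1] at this
  linarith

theorem locmin (hO : Bornology.IsBounded O) (hm : MeasurableSet O) (hJ : ∀ p, J p =ᵐ[volume] p.1.1)
    (C : (E 3 → ℝ) → Prop) (hC : ∀ φ (c : ℝ), 0 < c → C φ → C (c • φ)) {U K : Set (Hs O)}
    (hU : IsOpen U) (hK : IsClosed K) (UC : ∀ φ (h : Test O φ), pair h ∈ U → C φ) {M ρ : ℝ}
    (ρ0 : 0 < ρ) (h0 : ∃ φ, Test O φ ∧ C φ ∧ Dt φ < M * (∫ x, P (φ x)) ^ (4 / 3 : ℝ))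
    (CK : ∀ φ (h : Test O φ), C φ → ∫ x, P (φ x) = 1 → Dt φ < M → pair h ∈ K) (KU : K ⊆ U)
    (mid : ∀ p ∈ K, ∀ q ∈ K, ‖(p - q).1.1‖ < ρ → p + q ∈ U) :
    ∃ m < M, (∀ φ, Test O φ → C φ → m * (∫ x, P (φ x)) ^ (4 / 3 : ℝ) ≤ Dt φ) ∧
      ∃ p ∈ K, Crit J m p := by
  set S := {d | ∃ φ, Test O φ ∧ C φ ∧ ∫ x, P (φ x) = 1 ∧ d = Dt φ}
  have hI := fun φ (h : Test O φ) => cone C hC h
  obtain ⟨φ₀, t0, c0, d0⟩ := h0
  have z : ∫ x, P (φ₀ x) ≠ 0 := fun z => by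
    rw [z, Real.zero_rpow (by norm_num), mul_zero] at d0
    exact d0.not_ge (Dt_nonneg _)
  have mM : sInf S < M := lt_of_mul_lt_mul_right ((hI _ t0 c0).trans_lt d0)
    (Real.rpow_nonneg (integral_nonneg fun _ => P0 _) _)
  obtain ⟨a, a0, -, a2⟩ := nrm t0 z
  have ne : S.Nonempty := ⟨_, _, t0.smul a, hC _ _ a0 c0, a2, rfl⟩
  have S0 : ∀ d ∈ S, 0 ≤ d := fun _ ⟨φ, _, _, _, e⟩ => e ▸ Dt_nonneg φ
  have hH : ∀ q ∈ U, sInf S * ‖J q‖ ^ 2 ≤ ‖q.1.2‖ ^ 2 := fun q hq => by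
    obtain ⟨φ, hφ, t⟩ := exists_seq q
    refine le_of_tendsto_of_tendsto ((((J.continuous.norm.tendsto q).comp t).pow 2).const_mul _)
      ((cont_snd.tendsto q).comp t) ((t.eventually (hU.mem_nhds hq)).mono fun n hn => ?_)
    have := hI _ (hφ n) (UC _ _ hn)
    rwa [JT hJ (hφ n), P43, ← pair_norm_snd (hφ n)] at this
  obtain ⟨u, u1, u2, u3⟩ := exists_seq_tendsto_sInf ne ⟨0, S0⟩
  obtain ⟨n₀, hn₀⟩ := (u2.eventually (gt_mem_nhds mM)).exists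
  choose φ hφ b1 b2 b3 using fun n => u3 (n + n₀)
  have k : ∀ n, pair (hφ n) ∈ K := fun n => CK _ _ (b1 n) (b2 n)
    (b3 n ▸ (u1 (Nat.le_add_left _ _)).trans_lt hn₀)
  have l0 := le_csInf ne S0
  obtain ⟨κ, hκ, p, t, p1, p2, -⟩ := conv hO hm hJ (Q := fun k => pair (hφ k))
    (fun k => JT1 hJ _ (b2 k)) l0 (by
      simpa only [pair_norm_snd, ← b3] using (tendsto_add_atTop_iff_nat n₀).2 u2)
    fun η η0 => ⟨ρ, ρ0, 0, fun n _ m _ h => le_trans (mul_le_mul_of_nonneg_right (by linarith)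
      (sq_nonneg _)) (hH _ (mid _ (k n) _ (k m) h))⟩
  have pK := hK.mem_of_tendsto t (Eventually.of_forall fun n => k _)
  refine ⟨_, mM, hI, p, pK, p1, fun r => euler hO hm hJ l0 p1 p2 r ?_⟩
  have : Tendsto (fun t : ℝ => p + t • r) (𝓝 0) (𝓝 p) :=
    Continuous.tendsto' (by fun_prop) _ _ (by simp)
  exact (this.eventually (hU.mem_nhds (KU pK))).mono fun t ht => hH _ ht

lemma flip {K w κ : ℝ} (hK : ∀ x, deriv th x ^ 2 ≤ K) (hO : Bornology.IsBounded O)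
    (hm : MeasurableSet O) (s : Ω ⊆ O) (hw : ∀ p ∈ Ω, p 0 ∈ Ioo (-1 : ℝ) 1 → |p 1| ≤ w)
    (κ0 : 0 < κ) (hφ : Test Ω φ) : ∃ ψ, Test Ω ψ ∧ (∀ p : E 3, 1 ≤ p 0 → ψ p = φ p) ∧
      (∀ p : E 3, p 0 ≤ -1 → ψ p = -φ p) ∧ Dt ψ ≤ Dt φ + 4 * K * (4 * w ^ 2 * Dt φ) ∧
      ∫ x, P (φ x) ≤ (4 * w ^ 2 * Dt φ / κ + κ ^ 3 * volume.real O) + ∫ x, P (ψ x) := by
  have K0 : 0 ≤ K := (sq_nonneg _).trans (hK 0)
  let θ : ℝ → ℝ := fun x => 2 * th (1 * x - -(1 / 2)) - π / 2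
  have c0 : ContDiff ℝ (⊤ : ℕ∞) θ := (contDiff_const.mul ((contDiff_const.mul
    Real.smoothTransition.contDiff : ContDiff ℝ (⊤ : ℕ∞) th).comp (by fun_prop))).sub contDiff_const
  have t : ContDiff ℝ (⊤ : ℕ∞) fun p : E 3 => θ (p 0) :=
    c0.comp (EuclideanSpace.proj (𝕜 := ℝ) (0 : Fin 3) : E 3 →L[ℝ] ℝ).contDiff
  have ha : Test Ω (cm θ φ) := tmul hφ t.cos
  have hb : Test Ω (sm θ φ) := tmul hφ t.sin
  have e1 : ∀ p : E 3, 1 ≤ p 0 → sm θ φ p = φ p := fun p hp => by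
    simp only [sm, θ]
    rw [th1 (by linarith), show 2 * (π / 2) - π / 2 = π / 2 by ring, Real.sin_pi_div_two, one_mul]
  have e2 : ∀ p : E 3, p 0 ≤ -1 → sm θ φ p = -φ p := fun p hp => by
    simp only [sm, θ]
    rw [th0 (by linarith)]; simp
  have m : MeasurableSet {p : E 3 | p 0 ∈ Ioo (-1 : ℝ) 1} :=
    (isOpen_Ioo.preimage (f := fun p : E 3 => p 0) (by fun_prop)).measurableSet
  have i2 : Integrable fun x => φ x ^ 2 := intk hφ two_ne_zero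
  have k := thin hφ isOpen_Ioo hw
  refine ⟨_, hb, e1, e2, ?_, ?_⟩
  · refine le_trans ?_ (add_le_add_right (mul_le_mul_of_nonneg_left k (by positivity)) _)
    rw [Dt, Dt, ← integral_const_mul, ← integral_indicator m,
      ← integral_add (intD hφ) ((i2.const_mul _).indicator m)]
    refine integral_mono (intD hb) ((intD hφ).add ((i2.const_mul _).indicator m)) fun p => ?_
    refine (le_add_of_nonneg_left (sq_nonneg ‖fderiv ℝ (cm θ φ) p‖)).trans ?_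
    have d : deriv θ (p 0) = _ := (((tk_d 1 (-(1 / 2)) (p 0)).const_mul 2).sub_const _).deriv
    simp only [ims0 (c0.of_le (by exact_mod_cast le_top)) hφ.c1 p, d, indicator_apply,
      mem_ofPred_eq]
    split_ifs with c
    · nlinarith [mul_le_mul_of_nonneg_right (hK (1 * p 0 - -(1 / 2))) (sq_nonneg (φ p))]
    · rw [thd fun h => c ⟨by linarith [h.1], by linarith [h.2]⟩]; simp
  · rw [← integral_add_compl m (intP hφ)]
    refine add_le_add ((Ple hO hm (intP hφ) i2 (Eventually.of_forall fun x hx =>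
      (hφ.zero_off fun h => hx (s h)).1) _ κ0).trans (by gcongr)) (le_trans (le_of_eq
      (setIntegral_congr_fun m.compl fun p hp => ?_)) (setIntegral_le_integral (intP hb)
      (Eventually.of_forall fun _ => P0 _)))
    rcases not_and_or.1 hp with c | c
    · simp [e2 p (not_lt.1 c), P]
    · simp [e1 p (not_lt.1 c)]

end Pool.Agent.H.MP_0fb79d_an
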