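import Pool.Agent.H.MP_0fb79d_an.F

set_option linter.unusedSectionVars false
set_option linter.dupNamespace false

namespace Pool.Agent.H.MP_0fb79d_an

open MeasureTheory Filter Topology Set Metric Pool.Agent.Lib.helper10.H10 Pool.Agent.H.MP_eb4995_an
open scoped ENNReal NNReal Real
open Pool.Agent.H.MP_21f5b8_an (small tst)
open Pool.Agent.H.MP_d01728_an (exK)

attribute [local instance] fact32 fact6 fact2

def Om (w : ℝ) : Set (E 3) := Bo ![2, 0, 0] 1 ∪ Bo 0 ![3, w, w] ∪ Bo ![-2, 0, 0] 1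

lemma Om_o (w : ℝ) : IsOpen (Om w) := ((Bo_o _ _).union (Bo_o _ _)).union (Bo_o _ _)

lemma Om_bd (w : ℝ) : Bornology.IsBounded (Om w) := ((Bo_bd _ _).union (Bo_bd _ _)).union (Bo_bd _ _)

lemma one0 (i : Fin 3) : 0 < (1 : Fin 3 → ℝ) i := one_pos

lemma hw0 {w : ℝ} (h : 0 < w) (i : Fin 3) : 0 < ![3, w, w] i := by fin_cases i <;> simp [h]

lemma Om_c {w : ℝ} (h : 0 < w) : IsConnected (Om w) :=
  ⟨⟨_, .inr (Bo_ne one0)⟩, IsPreconnected.union _ (.inr fun i => by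
    fin_cases i <;> simp [h]; norm_num) (Bo_ne one0) (IsPreconnected.union _ (Bo_ne one0)
    (fun i => by fin_cases i <;> simp [h]; norm_num) (Bo_cv _ _).isPreconnected
    (Bo_cv _ _).isPreconnected) (Bo_cv _ _).isPreconnected⟩

lemma Om_mono {w w' : ℝ} (h : w ≤ w') : Om w ⊆ Om w' :=
  union_subset_union_left _ (union_subset_union_right _ fun p hp i =>
    (hp i).trans_le (by fin_cases i <;> simp [h]))

lemma Om_thin {w : ℝ} (p : E 3) (hp : p ∈ Om w) (h : p 0 ∈ Ioo (-1 : ℝ) 1) : |p 1| ≤ w := by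
  rcases hp with (hp | hp) | hp
  · have := (abs_lt.1 (hp 0)).1
    simp at this; linarith [h.2]
  · simpa using (hp 1).le
  · have := (abs_lt.1 (hp 0)).2
    simp at this; linarith [h.1]

lemma rl {a a' b b' γ : ℝ} (h : a * b ≤ 0) (ha : γ ≤ |a|) (hb : γ ≤ |b|) (h1 : |a - a'| < γ)
    (h2 : |b - b'| < γ) : (a + a') * (b + b') < 0 := by
  obtain ⟨h1, h1'⟩ := abs_lt.1 h1
  obtain ⟨h2, h2'⟩ := abs_lt.1 h2
  rcases le_abs'.1 ha with ha | ha <;> rcases le_abs'.1 hb with hb | hb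
  · nlinarith
  · exact mul_neg_of_neg_of_pos (by linarith) (by linarith)
  · exact mul_neg_of_pos_of_neg (by linarith) (by linarith)
  · nlinarith

lemma ovl {S S' : Set (E 3)} (o : IsOpen S) (o' : IsOpen S') {x : E 3} (h : x ∈ S) (h' : x ∈ S')
    {v : E 3 → ℝ} {s s' : ℝ} (a : ∀ᵐ x, x ∈ S → 0 < s * v x) (a' : ∀ᵐ x, x ∈ S' → 0 < s' * v x) :
    0 < s * s' := by
  obtain ⟨y, hy, b, b'⟩ := Measure.exists_mem_of_measure_ne_zero_of_ae
    ((o.inter o').measure_pos volume ⟨x, h, h'⟩).ne' (ae_restrict_of_ae (a.and a'))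
  have := mul_pos (b hy.1) (b' hy.2)
  rw [mul_mul_mul_comm] at this
  exact not_le.1 fun c => this.not_ge (mul_nonpos_of_nonpos_of_nonneg c (mul_self_nonneg _))

theorem main : ∃ Ω : Set (E 3), IsOpen Ω ∧ Bornology.IsBounded Ω ∧ IsConnected Ω ∧
    ∃ J : Hs Ω →L[ℝ] L32, (∀ p, J p =ᵐ[volume] p.1.1) ∧ ∃ l m M : ℝ, 0 < l ∧ l < m ∧ m < M ∧
      Iq Ω l ∧ (∃ p, Crit J l p) ∧ (∃ p, Crit J m p) ∧ ¬AccPt l (𝓟 {m | ∃ p, Crit J m p}) ∧
      ∃ T : Lp ℝ 2 (volume : Measure (E 3)) →L[ℝ] ℝ, ∀ p : Hs Ω, ‖J p‖ = 1 → T p.1.1 = 0 →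
        M ≤ ‖p.1.2‖ ^ 2 := by
  let Ω : ℕ → Set (E 3) := fun n => Om (1 / (n + 1))
  have w0 : ∀ n : ℕ, 0 < 1 / ((n : ℝ) + 1) := fun n => by positivity
  have an : Antitone Ω := fun n m h => Om_mono (by gcongr)
  have bd : ∀ n, Bornology.IsBounded (Ω n) := fun n => Om_bd _
  have ms : ∀ n, MeasurableSet (Ω n) := fun n => (Om_o _).measurableSet
  have s1 : ∀ n, Bo ![2, 0, 0] 1 ⊆ Ω n := fun n => subset_union_left.trans subset_union_left
  have s2 : ∀ n, Bo ![-2, 0, 0] 1 ⊆ Ω n := fun n => subset_union_right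
  choose J C hJ hC using fun n => exists_J (N := 3) (by norm_num) (bd n) (3 / 2) (by norm_num)
  obtain ⟨φ₁, t1, -, a1⟩ := tst (WithLp.toLp 2 ![2, 0, 0]) one_pos
  replace t1 : Test (Bo ![2, 0, 0] 1) φ₁ := t1.mono fun p hp i =>
    (PiLp.dist_apply_le p _ i).trans_lt hp
  obtain ⟨a, -, -, a0⟩ := nrm t1 fun z => by
    rw [integral_congr_ae (g := fun _ => 0) (((integral_eq_zero_iff_of_nonneg (fun _ => P0 _)
      (intP t1)).1 z).mono fun x hx => by simpa [P_eq] using hx)] at a1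
    simp at a1
  have t0 := t1.smul a
  choose L _a hI p _b hp using fun n => locmin (bd n) (ms n) (hJ n) (fun _ => True)
    (fun _ _ _ _ => trivial) isOpen_univ isClosed_univ (fun _ _ _ => trivial) one_pos
    ⟨_, t0.mono (s1 n), trivial, by rw [a0, Real.one_rpow, mul_one]; exact lt_add_one _⟩
    (fun _ _ _ _ _ => trivial) Subset.rfl fun _ _ _ _ _ => trivial
  replace hI : ∀ n, Iq (Ω n) (L n) := fun n φ h => hI n φ h trivial
  have hL : ∀ n l, Iq (Ω n) l → l ≤ L n := fun n l h => by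
    simpa [(hp n).1, (hp n).en (hJ n)] using h.H (hJ n) (p n)
  have mo : Monotone L := fun n m h => hL _ _ fun φ hφ => hI n φ (hφ.mono (an h))
  have bb : BddAbove (range L) := ⟨Dt (a • φ₁), by
    rintro _ ⟨n, rfl⟩
    simpa only [a0, Real.one_rpow, mul_one] using hI n _ (t0.mono (s1 n))⟩
  have L0 : ∀ n, 0 < L n := fun n => by
    rw [← (hp n).en (hJ n)]
    refine pow_pos (lt_of_le_of_ne (norm_nonneg _) fun e => ?_) 2
    have := hC n (p n)
    rw [← e, (hp n).1] at this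
    linarith
  have tL := tendsto_atTop_ciSup mo bb
  have l0 := (L0 0).trans_le (le_ciSup bb 0)
  obtain ⟨γ1, g1, N1, h1⟩ := gap (bd 0) (ms 0) (hJ 0) an (fun n => an n.zero_le) hI
    (fun n => (L0 n).le) tL l0 one0 s1
  obtain ⟨γ2, g2, N2, h2⟩ := gap (bd 0) (ms 0) (hJ 0) an (fun n => an n.zero_le) hI
    (fun n => (L0 n).le) tL l0 one0 s2
  set γ := min γ1 γ2
  have γ0 : 0 < γ := lt_min g1 g2
  set M := (⨆ i, L i) + γ with hM
  have M0 : 0 < M := by positivity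
  obtain ⟨K, hK⟩ := exK
  have K0 : 0 ≤ K := (sq_nonneg _).trans (hK 0)
  obtain ⟨κ, κ0, κ1, hκ⟩ := small (M := 4 / 3 * M * volume.real (Ω 0)) (η := γ / 8)
    (by positivity) (by positivity)
  obtain ⟨w, w1, w2, hw⟩ := small (M := 16 * M ^ 2 / (3 * κ) + 16 * K * M) (η := γ / 8)
    (by positivity) (by positivity)
  obtain ⟨n, ⟨n1, n2⟩, n3⟩ := (((eventually_ge_atTop N1).and (eventually_ge_atTop N2)).and
    (t1n.eventually (ge_mem_nhds w1))).exists
  have G1 := fun φ h a (b : Dt φ ≤ M) => (min_le_left γ1 γ2).trans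
    (h1 n n1 φ h a (b.trans (add_le_add_right (min_le_left _ _) _)))
  have G2 := fun φ h a (b : Dt φ ≤ M) => (min_le_right γ1 γ2).trans
    (h2 n n2 φ h a (b.trans (add_le_add_right (min_le_right _ _) _)))
  have low : ∀ (p : Hs (Ω n)) (c h : Fin 3 → ℝ), ‖J n p‖ = 1 → ‖p.1.2‖ ^ 2 = L n → (∀ i, 0 < h i) →
      Bo c h ⊆ Ω n → ∃ ε > 0, ∀ᵐ x, x ∈ Bo c h → ε * bp c h x ≤ |p.1.1 x| := by
    intro p c h p1 p2 h0 s
    obtain ⟨ε, ε0, hε⟩ := lower (c := c) h0 (L0 n)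
    obtain ⟨φ, hφ, -, b, b'⟩ := seq_ae p
    exact ⟨ε, ε0, hε (fun _ => Ω n) (fun _ => L n) φ _ (fun _ => s) hφ (fun _ => hI n)
      (fun _ => (L0 n).le) tendsto_const_nhds (p2 ▸ b) b' (by rw [JA1 (hJ n), p1, P1])⟩
  have s3 : Bo 0 ![3, 1 / (n + 1), 1 / (n + 1)] ⊆ Ω n := subset_union_right.trans subset_union_left
  set T1 := Tb ![2, 0, 0] 1 with hT1
  set T2 := Tb ![-2, 0, 0] 1 with hT2
  have c1 : Continuous fun q : Hs (Ω n) => T1 q.1.1 := Tb_c
  have c2 : Continuous fun q : Hs (Ω n) => T2 q.1.1 := Tb_c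
  obtain ⟨m, mM, -, q, ⟨q1, q2, q3⟩, hq⟩ := locmin (bd n) (ms n) (hJ n)
    (fun φ => (∫ x in Bo ![2, 0, 0] (tw 1), φ x) * ∫ x in Bo ![-2, 0, 0] (tw 1), φ x ≤ 0)
    (fun φ c c0 h => by
      simp only [Pi.smul_apply, smul_eq_mul, integral_const_mul]
      rw [mul_mul_mul_comm]
      exact mul_nonpos_of_nonneg_of_nonpos (mul_self_nonneg c) h)
    (U := {q | T1 q.1.1 * T2 q.1.1 < 0})
    (K := {q | T1 q.1.1 * T2 q.1.1 ≤ 0} ∩ ({q | γ ≤ |T1 q.1.1|} ∩ {q | γ ≤ |T2 q.1.1|}))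
    (isOpen_lt (c1.mul c2) continuous_const) ((isClosed_le (c1.mul c2) continuous_const).inter
      ((isClosed_le continuous_const c1.abs).inter (isClosed_le continuous_const c2.abs)))
    (fun φ h k => le_of_lt (by simpa only [mem_ofPred_eq, hT1, hT2, Tb_pair] using k)) (M := M)
    (ρ := γ / (‖T1‖ + ‖T2‖ + 1)) (by positivity) (by
      obtain ⟨φ', h', d'⟩ : ∃ φ, Test (Ω n) φ ∧ Dt φ < (M - γ / 2) * (∫ x, P (φ x)) ^ (4 / 3 : ℝ) := by
        by_contra! h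
        linarith [hL n _ h, le_ciSup bb n]
      obtain ⟨c, c0, e1, e2⟩ := nrm h' fun z => by
        rw [z, Real.zero_rpow (by norm_num), mul_zero] at d'
        exact d'.not_ge (Dt_nonneg _)
      have h := h'.smul c
      have d : Dt (c • φ') < M - γ / 2 := by
        have := mul_lt_mul_of_pos_left d' (pow_pos c0 2)
        rwa [← Dt_smul h', mul_left_comm, e1, mul_one] at this
      generalize c • φ' = φ at h d e2
      have D0 := Dt_nonneg φ
      obtain ⟨ψ, hψ, f1, f2, f3, f4⟩ := flip hK (bd 0) (ms 0) (an n.zero_le)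
        (fun p hp h => (Om_thin p hp h).trans n3) κ0 h
      rcases le_total ((∫ x in Bo ![2, 0, 0] (tw 1), φ x) * ∫ x in Bo ![-2, 0, 0] (tw 1), φ x) 0
        with z | z
      · exact ⟨φ, h, z, by rw [e2, Real.one_rpow]; linarith⟩
      refine ⟨ψ, hψ, ?_, lt_of_lt_of_le ?_ (mul_le_mul_of_nonneg_left
        (bern (integral_nonneg fun _ => P0 _)) M0.le)⟩
      · rw [setIntegral_congr_fun (Bo_o _ _).measurableSet fun p hp => f1 p (by
          have := (abs_lt.1 (hp 0)).1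
          simp [tw] at this; linarith), setIntegral_congr_fun (g := fun p => -φ p)
          (Bo_o _ _).measurableSet fun p hp => f2 p (by
          have := (abs_lt.1 (hp 0)).2
          simp [tw] at this; linarith), integral_neg]
        linarith
      have r1 : w ^ 2 * Dt φ ≤ w * M := mul_le_mul (by nlinarith) (by linarith) D0 w1.le
      have r2 : κ ^ 3 * volume.real (Ω 0) ≤ κ * volume.real (Ω 0) := by
        gcongr; exact pow_le_of_le_one κ0.le κ1 (by norm_num)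
      have r3 : 4 * w ^ 2 * Dt φ / κ ≤ 4 * (w * M) / κ := by rw [mul_assoc]; gcongr
      have r4 : M * (4 * (w * M) / κ) = 3 / 4 * (w * (16 * M ^ 2 / (3 * κ))) := by field_simp; ring
      linarith [mul_le_mul_of_nonneg_left r1 K0, mul_le_mul_of_nonneg_left r2 M0.le,
        mul_le_mul_of_nonneg_left r3 M0.le, mul_le_mul_of_nonneg_left (e2 ▸ f4) M0.le])
    (fun φ h k a b => by
      simpa only [mem_inter_iff, mem_ofPred_eq, hT1, hT2, Tb_pair] using
        And.intro k ⟨G1 φ h a b.le, G2 φ h a b.le⟩)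
    (fun q ⟨k, k1, k2⟩ => lt_of_le_of_ne k (mul_ne_zero (abs_pos.1 (γ0.trans_le k1))
      (abs_pos.1 (γ0.trans_le k2)))) fun p ⟨k, k1, k2⟩ q _ h => by
      have := (lt_div_iff₀ (by positivity)).1 h
      have a := T1.le_opNorm (p - q).1.1
      have b := T2.le_opNorm (p - q).1.1
      have := mul_nonneg (norm_nonneg T1) (norm_nonneg (p - q).1.1)
      have := mul_nonneg (norm_nonneg T2) (norm_nonneg (p - q).1.1)
      have := norm_nonneg (p - q).1.1
      change T1 (p.1.1 + q.1.1) * T2 (p.1.1 + q.1.1) < 0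
      rw [map_add, map_add]
      refine rl k k1 k2 ?_ ?_ <;> rw [← map_sub]
      · exact lt_of_le_of_lt a (by linarith)
      · exact lt_of_le_of_lt b (by linarith)
  refine ⟨Ω n, Om_o _, bd n, Om_c (w0 n), J n, hJ n, L n, m, M, L0 n, lt_of_le_of_ne (by
    simpa [hq.1, hq.en (hJ n)] using (hI n).H (hJ n) q) fun e => ?_, mM, hI n, ⟨_, hp n⟩, ⟨_, hq⟩,
    iso (bd n) (ms n) (hJ n) (hI n) (L0 n) fun p p1 p2 => ?_, T1, fun p p1 z => not_lt.1 fun h => ?_⟩
  · have e' := (hq.en (hJ n)).trans e.symm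
    obtain ⟨ε1, b1, d1⟩ := low q _ _ hq.1 e' one0 (s1 n)
    obtain ⟨ε2, b2, d2⟩ := low q _ _ hq.1 e' one0 (s2 n)
    obtain ⟨ε3, b3, d3⟩ := low q _ _ hq.1 e' (hw0 (w0 n)) s3
    obtain ⟨σ1, y1, z1⟩ := sgn one0 b1 q d1
    obtain ⟨σ2, y2, z2⟩ := sgn one0 b2 q d2
    obtain ⟨σ3, y3, -⟩ := sgn (hw0 (w0 n)) b3 q d3
    have o1 := ovl (Bo_o _ _) (Bo_o _ _) (x := WithLp.toLp 2 ![3 / 2, 0, 0])
      (fun i => by fin_cases i <;> simp [tw]; norm_num [abs_lt])
      (fun i => by fin_cases i <;> simp [tw] <;> first | positivity | norm_num [abs_lt]) y1 y3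
    have o2 := ovl (Bo_o _ _) (Bo_o _ _) (x := WithLp.toLp 2 ![-(3 / 2), 0, 0])
      (fun i => by fin_cases i <;> simp [tw]; norm_num [abs_lt])
      (fun i => by fin_cases i <;> simp [tw] <;> first | positivity | norm_num [abs_lt]) y2 y3
    have o3 := mul_pos o1 o2
    have o4 := mul_pos z1 z2
    rw [mul_mul_mul_comm] at o3 o4
    exact (mul_nonpos_of_nonneg_of_nonpos (not_lt.1 fun c => o3.not_ge
      (mul_nonpos_of_nonpos_of_nonneg c.le (mul_self_nonneg _))) q1).not_gt o4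
  · have m := (Lp.aestronglyMeasurable p.1.1).aemeasurable
    obtain ⟨ε1, b1, d1⟩ := low p _ _ p1 p2 one0 (s1 n)
    obtain ⟨ε2, b2, d2⟩ := low p _ _ p1 p2 one0 (s2 n)
    obtain ⟨ε3, b3, d3⟩ := low p _ _ p1 p2 (hw0 (w0 n)) s3
    obtain ⟨y1, z1⟩ := intW one0 b1 m d1
    obtain ⟨y2, z2⟩ := intW one0 b2 m d2
    obtain ⟨y3, z3⟩ := intW (hw0 (w0 n)) b3 m d3
    refine ⟨?_, (z1.union z3).union z2⟩
    filter_upwards [y1, y2, y3] with x a b c h
    exact h.elim (fun h => h.elim a c) b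
  · have := gapH (hJ n) G1 p p1 h
    rw [← hT1, z, abs_zero] at this
    exact this.not_gt γ0

end Pool.Agent.H.MP_0fb79d_an
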